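import Pool.Agent.Helper97.MP.Defs

/-!
# Hensel's lemma in the completions of a number field
-/

set_option autoImplicit false
set_option maxHeartbeats 1000000

namespace Pool.Agent.MPF

open Polynomial

theorem hensel {K : Type} [NormedField K] [CompleteSpace K] [IsUltrametricDist K] (g : K[X]) (a : K)
    (hg : ∀ i, ‖g.coeff i‖ ≤ 1) (ha : ‖a‖ ≤ 1) (h1 : ‖g.eval a‖ < 1)
    (h2 : ‖g.derivative.eval a‖ = 1) : ∃ z, g.eval z = 0 ∧ ‖z - a‖ < 1 := by
  -- the closed unit ball
  let O : Subring K :=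
    { carrier := {x | ‖x‖ ≤ 1}
      mul_mem' := fun {x y} hx hy => by
        change ‖x * y‖ ≤ 1
        rw [norm_mul]
        exact mul_le_one₀ hx (norm_nonneg _) hy
      one_mem' := by change ‖(1 : K)‖ ≤ 1; rw [norm_one]
      add_mem' := fun {x y} hx hy => by
        change ‖x + y‖ ≤ 1
        exact (IsUltrametricDist.norm_add_le_max x y).trans (max_le hx hy)
      zero_mem' := by change ‖(0 : K)‖ ≤ 1; rw [norm_zero]; exact zero_le_one
      neg_mem' := fun {x} hx => by
        change ‖-x‖ ≤ 1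
        rw [norm_neg]; exact hx }
  have hO : ∀ x : K, x ∈ O ↔ ‖x‖ ≤ 1 := fun x => Iff.rfl
  obtain ⟨G, hG⟩ : ∃ G : O[X], G.map O.subtype = g := by
    have : g ∈ lifts O.subtype := by
      rw [lifts_iff_coeff_lifts]
      intro n
      exact ⟨⟨g.coeff n, hg n⟩, rfl⟩
    exact (mem_lifts _).1 this
  have hev : ∀ x : O, ((G.eval x : O) : K) = g.eval (x : K) := by
    intro x
    rw [← hG, eval_map]
    exact (eval₂_at_apply O.subtype x).symm
  have hev' : ∀ x : O, ((G.derivative.eval x : O) : K) = g.derivative.eval (x : K) := by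
    intro x
    rw [← hG, derivative_map, eval_map]
    exact (eval₂_at_apply O.subtype x).symm
  let A : O := ⟨a, ha⟩
  set D := g.derivative.eval a with hD
  have hD0 : D ≠ 0 := by
    intro h
    rw [h, norm_zero] at h2
    exact zero_ne_one h2
  set ρ := ‖g.eval a‖ with hρ
  have hρ0 : 0 ≤ ρ := norm_nonneg _
  -- the main estimate
  have key : ∀ x y : O, ‖(y : K) - a‖ ≤ ρ → ‖(x : K) - y‖ ≤ ρ →
      ‖(g.eval (x : K) - g.eval (y : K)) - D * (x - y)‖ ≤ ρ * ‖(x : K) - y‖ := by
    intro x y hy hxy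
    obtain ⟨c, hc⟩ := G.binomExpansion y (x - y)
    obtain ⟨c', hc'⟩ := G.derivative.evalSubFactor y A
    have e1 : (g.eval (x : K) - g.eval (y : K)) = g.derivative.eval (y : K) * (x - y) +
        (c : K) * (x - y) ^ 2 := by
      have h3 := congrArg (fun z : O => (z : K)) hc
      simp only [Subring.coe_add, Subring.coe_mul, Subring.coe_pow, AddSubgroupClass.coe_sub] at h3
      rw [hev, hev, hev'] at h3
      have h5 : (((y + (x - y) : O)) : K) = x := by
        rw [add_sub_cancel]
      rw [h5] at h3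
      rw [h3]; ring
    have e2 : g.derivative.eval (y : K) - D = (c' : K) * (y - a) := by
      have h3 := congrArg (fun z : O => (z : K)) hc'
      simp only [Subring.coe_mul, AddSubgroupClass.coe_sub] at h3
      rw [hev', hev'] at h3
      exact h3
    have e3 : (g.eval (x : K) - g.eval (y : K)) - D * (x - y) =
        ((c' : K) * (y - a) + (c : K) * (x - y)) * (x - y) := by
      rw [e1]
      linear_combination (x - y : K) * e2
    rw [e3, norm_mul]
    refine mul_le_mul_of_nonneg_right ?_ (norm_nonneg _)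
    refine (IsUltrametricDist.norm_add_le_max _ _).trans (max_le ?_ ?_)
    · rw [norm_mul]
      calc ‖(c' : K)‖ * ‖(y : K) - a‖ ≤ 1 * ρ := mul_le_mul c'.2 hy (norm_nonneg _) zero_le_one
        _ = ρ := one_mul _
    · rw [norm_mul]
      calc ‖(c : K)‖ * ‖(x : K) - y‖ ≤ 1 * ρ := mul_le_mul c.2 hxy (norm_nonneg _) zero_le_one
        _ = ρ := one_mul _
  let T : K → K := fun x => x - g.eval x / D
  let B : Set K := Metric.closedBall a ρ
  have hBO : ∀ x ∈ B, ‖x‖ ≤ 1 := by
    intro x hx
    have h3 : ‖x - a‖ ≤ ρ := by rw [← dist_eq_norm]; exact hx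
    have h4 : x = (x - a) + a := by ring
    rw [h4]
    exact (IsUltrametricDist.norm_add_le_max _ _).trans (max_le (h3.trans h1.le) ha)
  have hTT : ∀ x ∈ B, ∀ y ∈ B, ‖T x - T y‖ ≤ ρ * ‖x - y‖ := by
    intro x hx y hy
    have hx' : ‖x - a‖ ≤ ρ := by rw [← dist_eq_norm]; exact hx
    have hy' : ‖y - a‖ ≤ ρ := by rw [← dist_eq_norm]; exact hy
    have hxy : ‖x - y‖ ≤ ρ := by
      have : x - y = (x - a) + -(y - a) := by ring
      rw [this]
      refine (IsUltrametricDist.norm_add_le_max _ _).trans (max_le hx' ?_)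
      rw [norm_neg]; exact hy'
    have h3 := key ⟨x, hBO x hx⟩ ⟨y, hBO y hy⟩ hy' hxy
    have h4 : T x - T y = -((g.eval x - g.eval y) - D * (x - y)) / D := by
      change (x - g.eval x / D) - (y - g.eval y / D) = _
      field_simp
      ring
    rw [h4, norm_div, norm_neg, h2, div_one]
    exact h3
  have hTa : ‖T a - a‖ = ρ := by
    have : T a - a = -(g.eval a / D) := by
      change (a - g.eval a / D) - a = _
      ring
    rw [this, norm_neg, norm_div, h2, div_one]
  have haB : a ∈ B := Metric.mem_closedBall_self hρ0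
  have hmaps : Set.MapsTo T B B := by
    intro x hx
    have h3 := hTT x hx a haB
    have hx' : ‖x - a‖ ≤ ρ := by rw [← dist_eq_norm]; exact hx
    change dist (T x) a ≤ ρ
    rw [dist_eq_norm]
    have h4 : T x - a = (T x - T a) + (T a - a) := by ring
    rw [h4]
    refine (IsUltrametricDist.norm_add_le_max _ _).trans (max_le (h3.trans ?_) hTa.le)
    calc ρ * ‖x - a‖ ≤ ρ * 1 := mul_le_mul_of_nonneg_left (hx'.trans h1.le) hρ0
      _ = ρ := mul_one _
  have hcontr : ContractingWith ⟨ρ, hρ0⟩ (hmaps.restrict T B B) := by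
    refine ⟨by exact_mod_cast h1, ?_⟩
    refine LipschitzWith.of_dist_le_mul fun x y => ?_
    rw [Subtype.dist_eq, Subtype.dist_eq, dist_eq_norm, dist_eq_norm]
    exact hTT x x.2 y y.2
  obtain ⟨z, hz, hfix, -⟩ := hcontr.exists_fixedPoint' (Metric.isClosed_closedBall.isComplete)
    hmaps haB (edist_ne_top _ _)
  refine ⟨z, ?_, ?_⟩
  · have h3 : T z = z := hfix
    have h4 : g.eval z / D = 0 := by
      have h5 : z - g.eval z / D = z := h3
      linear_combination -h5
    rcases div_eq_zero_iff.1 h4 with h5 | h5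
    · exact h5
    · exact absurd h5 hD0
  · rw [← dist_eq_norm]
    exact lt_of_le_of_lt hz h1

/-- BLOCK HENS -/
theorem hens : StmtHens := by
  intro k _ _ v g a hg ha h1 h2
  have hle : ∀ x : v.adicCompletion k, ‖x‖ ≤ 1 ↔ Valued.v x ≤ 1 := fun x =>
    Valued.toNormedField.norm_le_one_iff
  have hlt : ∀ x : v.adicCompletion k, ‖x‖ < 1 ↔ Valued.v x < 1 := fun x =>
    Valued.toNormedField.norm_lt_one_iff
  have heq : ∀ x : v.adicCompletion k, Valued.v x = 1 → ‖x‖ = 1 := fun x hx =>
    le_antisymm ((hle x).2 hx.le) (not_lt.1 fun h => absurd ((hlt x).1 h) (by rw [hx]; exact lt_irrefl _))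
  have : IsUltrametricDist (v.adicCompletion k) := inferInstance
  have : CompleteSpace (v.adicCompletion k) := inferInstance
  obtain ⟨z, hz, hza⟩ := hensel g a (fun i => (hle _).2 (hg i)) ((hle _).2 ha) ((hlt _).2 h1)
    (heq _ h2)
  exact ⟨z, hz, (hlt _).1 hza⟩

end Pool.Agent.MPF
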