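import Pool.Agent.Helper13.MP.Defs

/-!
# Project MP: local points of the twists (definitions and block statements for the final file)
-/

set_option autoImplicit false

namespace Pool.Agent.MPF

open NumberField IsDedekindDomain
open Pool.Agent.HG (Pr nm IsOdd)

noncomputable section

/-- The curve over `k` with function field `K` has an `F`-point: there are a valuation ring `P` of `K`
which contains `k` (a point of the curve, the generic one if `P = K`) and a homomorphism `P → F` over
`k`. -/
def HasPoint (k K F : Type) [Field k] [Field K] [Field F] [Algebra k K] [Algebra k F] : Prop :=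
  ∃ (P : ValuationSubring K) (ψ : P →+* F), ∀ a : k, ∃ h : algebraMap k K a ∈ P,
    ψ ⟨algebraMap k K a, h⟩ = algebraMap k F a

/-- The twist `y² = c h` (the curve with function field `K = K₀(y)`) has an `F`-point. -/
def TwistPoint {k K₀ : Type} [Field k] [Field K₀] [Algebra k K₀] (h : K₀) (c : k) (F : Type)
    [Field F] [Algebra k F] : Prop :=
  ∃ (K : Type) (_ : Field K) (_ : Algebra k K) (_ : Algebra K₀ K) (_ : IsScalarTower k K₀ K)
    (y : K), y ^ 2 = algebraMap k K c * algebraMap K₀ K h ∧
    IntermediateField.adjoin K₀ {y} = ⊤ ∧ HasPoint k K F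

/-- The twist by `c` has points over the completions of `k` at the primes in `S` and those at which
`c` has odd valuation, and over the reals, for all embeddings of `k`. -/
def LocSol {k K₀ : Type} [Field k] [NumberField k] [Field K₀] [Algebra k K₀] (h : K₀)
    (S : Set (Pr k)) (c : k) : Prop :=
  (∀ v : Pr k, v ∈ S ∨ IsOdd v c → TwistPoint h c (v.adicCompletion k)) ∧
  ∀ φ : k →+* ℝ, @TwistPoint k K₀ _ _ _ h c ℝ _ φ.toAlgebra

/-! ## Blocks -/

/-- BLOCK HENS: Hensel's lemma in `k_v`. -/
def StmtHens : Prop :=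
  ∀ (k : Type) [Field k] [NumberField k] (v : Pr k) (g : Polynomial (v.adicCompletion k))
    (a : v.adicCompletion k), (∀ i, Valued.v (g.coeff i) ≤ 1) → Valued.v a ≤ 1 →
    Valued.v (g.eval a) < 1 → Valued.v (g.derivative.eval a) = 1 →
    ∃ z : v.adicCompletion k, g.eval z = 0 ∧ Valued.v (z - a) < 1

/-- the criterion for points on the twist: a point `P` of `Y` with a local homomorphism `φ : P → F`
such that `h` has odd value at `P`, or `h = g z²`, `φ(g) ≠ 0` and `c φ(g)` a square of `F` -/
def Crit {k K₀ : Type} [Field k] [Field K₀] [Algebra k K₀] (h : K₀) (c : k) (F : Type)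
    [Field F] [Algebra k F] : Prop :=
  ∃ (P : ValuationSubring K₀) (φ : P →+* F),
    (∀ a : k, ∃ h : algebraMap k K₀ a ∈ P, φ ⟨algebraMap k K₀ a, h⟩ = algebraMap k F a) ∧
    (∀ x : P, φ x = 0 ∨ (x : K₀)⁻¹ ∈ P) ∧
    ((∀ z : K₀, P.valuation h ≠ P.valuation z ^ 2) ∨
      ∃ (z : K₀) (g : P), z ≠ 0 ∧ h = g * z ^ 2 ∧ φ g ≠ 0 ∧ IsSquare (algebraMap k F c * φ g))

/-- BLOCK LP: the criterion. -/
def StmtLP : Prop :=
  ∀ (k K₀ F : Type) [Field k] [Field K₀] [Field F] [CharZero k] [Algebra k K₀] [Algebra k F]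
    (h : K₀) (c : k), h ≠ 0 → c ≠ 0 → (TwistPoint h c F ↔ Crit h c F)

/-- BLOCK L1 (from LP, HENS): a branch point fixed by a Frobenius element at `v` gives a `k_v`-point
on all twists, for almost all `v`. -/
def StmtL1 : Prop :=
  ∀ (k K₀ : Type) [Field k] [NumberField k] [Field K₀] [Algebra k K₀] (h : K₀),
    Pool.Agent.L.GoodCurve k h → ∃ Bad : Set (Pr k), Bad.Finite ∧ ∀ v ∉ Bad, ∀ c : k, c ≠ 0 →
      Pool.Agent.MP.FrobFix k h v → TwistPoint h c (v.adicCompletion k)

/-- BLOCK L2 (from LP): the twist by `c` has an `F`-point if the one by `c₀` has and `c / c₀` is a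
square in `F`. -/
def StmtL2 : Prop :=
  ∀ (k K₀ F : Type) [Field k] [Field K₀] [Field F] [CharZero k] [Algebra k K₀] [Algebra k F]
    (h : K₀) (c c₀ : k), h ≠ 0 → c ≠ 0 → c₀ ≠ 0 → IsSquare (algebraMap k F (c₀⁻¹ * c)) →
    TwistPoint h c₀ F → TwistPoint h c F

/-- BLOCK L4 (from HENS): the elements of `k*` which are squares in `k_v` form a subgroup of finite
index (also for `v` above `2`). -/
def StmtL4 : Prop :=
  ∀ (k : Type) [Field k] [NumberField k] (v : Pr k), ∃ W : Subgroup kˣ, W.FiniteIndex ∧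
    ∀ w ∈ W, IsSquare (algebraMap k (v.adicCompletion k) (w : k))

/-- BLOCK HW (Stepanov's method, HENS): for `Y` the projective line almost all primes at which `c` has
even valuation have a point on the twist. -/
def StmtHW : Prop :=
  ∀ (k K₀ : Type) [Field k] [NumberField k] [Field K₀] [Algebra k K₀] (h x : K₀),
    Pool.Agent.L.GoodCurve k h → IntermediateField.adjoin k {x} = ⊤ →
    ∃ Bad : Set (Pr k), Bad.Finite ∧ ∀ v ∉ Bad, ∀ c : k, c ≠ 0 → ¬ IsOdd v c →
      TwistPoint h c (v.adicCompletion k)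

end

end Pool.Agent.MPF
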