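import Mathlib

/-!
# Points on `y² = b f(x)` over finite fields (Stepanov's method with bounded multiplicity)
-/

set_option autoImplicit false
set_option maxHeartbeats 1000000

namespace Pool.Agent.MPF

open Polynomial

noncomputable section

variable {F : Type} [Field F]

/-- the polynomial factor of the `i`-th derivative of `u f ^ e` -/
def op (f : F[X]) (e : F) : ℕ → F[X] →ₗ[F] F[X]
  | 0 => LinearMap.id
  | i + 1 => (LinearMap.mulLeft F f) ∘ₗ (Polynomial.derivative ∘ₗ op f e i) +
      (e - i) • ((LinearMap.mulLeft F (derivative f)) ∘ₗ op f e i)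

theorem op_zero (f : F[X]) (e : F) (u : F[X]) : op f e 0 u = u := rfl

theorem op_succ (f : F[X]) (e : F) (i : ℕ) (u : F[X]) :
    op f e (i + 1) u = f * derivative (op f e i u) + C (e - i) * (derivative f * op f e i u) := by
  change f * derivative (op f e i u) + (e - (i : F)) • (derivative f * op f e i u) = _
  rw [Polynomial.smul_eq_C_mul]

theorem op_natDegree (f : F[X]) (e : F) (u : F[X]) (M : ℕ) (hu : u.natDegree ≤ M) (i : ℕ) :
    (op f e i u).natDegree ≤ M + i * f.natDegree := by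
  induction i with
  | zero => rw [op_zero]; omega
  | succ i ih =>
    rw [op_succ]
    refine (natDegree_add_le _ _).trans (max_le ?_ ?_)
    · refine natDegree_mul_le.trans ?_
      have := natDegree_derivative_le (op f e i u)
      have h3 : (i + 1) * f.natDegree = i * f.natDegree + f.natDegree := by ring
      omega
    · refine natDegree_mul_le.trans ?_
      have h1 : (derivative f * op f e i u).natDegree ≤ (derivative f).natDegree +
        (op f e i u).natDegree := natDegree_mul_le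
      have h2 := natDegree_derivative_le f
      have h3 : (i + 1) * f.natDegree = i * f.natDegree + f.natDegree := by ring
      rw [natDegree_C]
      omega

/-- the `i`-th derivative of `T 0` -/
def TT (f : F[X]) (N q ℓ J : ℕ) (r s : Fin J → F[X]) (i : ℕ) : F[X] :=
  f ^ (ℓ - i) * ∑ j : Fin J,
    (op f (ℓ : F) i (r j) + op f ((ℓ : F) + N) i (s j) * f ^ N) * X ^ ((j : ℕ) * q)

theorem deriv_X_pow (q : ℕ) (hq : (q : F) = 0) (j : ℕ) :
    derivative (X ^ (j * q) : F[X]) = 0 := by
  rw [derivative_X_pow]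
  rw [Nat.cast_mul, hq, mul_zero, C_0, zero_mul]

theorem f_mul_deriv_pow (f : F[X]) (N : ℕ) :
    f * derivative (f ^ N) = C (N : F) * derivative f * f ^ N := by
  rcases Nat.eq_zero_or_pos N with rfl | hN
  · simp
  · obtain ⟨n, rfl⟩ : ∃ n, N = n + 1 := ⟨N - 1, by omega⟩
    rw [derivative_pow_succ]
    push_cast
    simp only [map_add, map_natCast, map_one]
    ring

theorem deriv_TT (f : F[X]) (N q ℓ J : ℕ) (hq : (q : F) = 0) (r s : Fin J → F[X]) (i : ℕ)
    (hi : i < ℓ) : derivative (TT f N q ℓ J r s i) = TT f N q ℓ J r s (i + 1) := by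
  obtain ⟨n, hn⟩ : ∃ n, ℓ - i = n + 1 := ⟨ℓ - i - 1, by omega⟩
  have hn' : ℓ - (i + 1) = n := by omega
  have hℓ : (ℓ : F) = i + n + 1 := by
    have : ℓ = i + n + 1 := by omega
    rw [this]; push_cast; ring
  unfold TT
  rw [hn, hn', derivative_mul, derivative_pow_succ, derivative_sum, Finset.mul_sum, Finset.mul_sum,
    Finset.mul_sum, ← Finset.sum_add_distrib]
  refine Finset.sum_congr rfl fun j _ => ?_
  rw [derivative_mul, deriv_X_pow q hq, mul_zero, add_zero, derivative_add, derivative_mul, op_succ,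
    op_succ]
  have h1 := f_mul_deriv_pow f N
  have e1 : C ((ℓ : F) - i) = C ((n : F) + 1) := by congr 1; rw [hℓ]; ring
  have e2 : C ((ℓ : F) + N - i) = C ((n : F) + 1) + C (N : F) := by
    rw [← C_add]; congr 1; rw [hℓ]; ring
  rw [e1, e2]
  generalize op f (ℓ : F) i (r j) = u
  generalize op f ((ℓ : F) + N) i (s j) = w
  have h2 : f ^ (n + 1) * ((derivative u + (derivative w * f ^ N + w * derivative (f ^ N))) *
      X ^ ((j : ℕ) * q)) = f ^ n * ((f * derivative u + (f * derivative w * f ^ N +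
      w * (f * derivative (f ^ N)))) * X ^ ((j : ℕ) * q)) := by ring
  rw [h2, h1]
  ring

theorem iter_TT (f : F[X]) (N q ℓ J : ℕ) (hq : (q : F) = 0) (r s : Fin J → F[X]) (i : ℕ)
    (hi : i ≤ ℓ) : derivative^[i] (TT f N q ℓ J r s 0) = TT f N q ℓ J r s i := by
  induction i with
  | zero => rfl
  | succ i ih => rw [Function.iterate_succ_apply', ih (by omega), deriv_TT f N q ℓ J hq r s i
      (by omega)]

/-- the condition -/
def EE (f : F[X]) (N ℓ J : ℕ) (a : F) (r s : Fin J → F[X]) (i : ℕ) : F[X] :=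
  ∑ j : Fin J, (op f (ℓ : F) i (r j) + C a * op f ((ℓ : F) + N) i (s j)) * X ^ (j : ℕ)

theorem eval_TT (f : F[X]) (N q ℓ J : ℕ) (a : F) (r s : Fin J → F[X]) (i : ℕ) (x : F)
    (hx : x ^ q = x) (ha : f.eval x ^ N = a) :
    (TT f N q ℓ J r s i).eval x = (f.eval x) ^ (ℓ - i) * (EE f N ℓ J a r s i).eval x := by
  unfold TT EE
  rw [eval_mul, eval_pow, eval_finsetSum, eval_finsetSum]
  congr 1
  refine Finset.sum_congr rfl fun j _ => ?_
  simp only [eval_mul, eval_add, eval_pow, eval_C, eval_X, ha]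
  rw [mul_comm (j : ℕ) q, pow_mul, hx]
  ring

/-- `f r² = c s²` is impossible for a squarefree polynomial of positive degree -/
theorem no_square (f : F[X]) (hsq : Squarefree f) (hd : 0 < f.natDegree) (c : F) (hc : c ≠ 0) :
    ∀ (n : ℕ) (r s : F[X]), r.natDegree = n → f * r ^ 2 = C c * s ^ 2 → r = 0 := by
  intro n
  induction n using Nat.strong_induction_on with
  | _ n ih =>
    intro r s hr h
    by_contra hr0
    have hf0 : f ≠ 0 := by rintro rfl; simp at hd
    have h1 : f ∣ s ^ 2 := by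
      have : f ∣ C c * s ^ 2 := ⟨r ^ 2, h.symm⟩
      rwa [IsUnit.dvd_mul_left (isUnit_C.2 hc.isUnit)] at this
    obtain ⟨s1, rfl⟩ := (hsq.dvd_pow_iff_dvd two_ne_zero).1 h1
    have h2 : r ^ 2 = C c * f * s1 ^ 2 := by
      apply mul_left_cancel₀ hf0
      rw [h]; ring
    have h3 : f ∣ r ^ 2 := ⟨C c * s1 ^ 2, by rw [h2]; ring⟩
    obtain ⟨r1, rfl⟩ := (hsq.dvd_pow_iff_dvd two_ne_zero).1 h3
    have h4 : f * r1 ^ 2 = C c * s1 ^ 2 := by
      apply mul_left_cancel₀ hf0
      calc f * (f * r1 ^ 2) = (f * r1) ^ 2 := by ring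
        _ = C c * f * s1 ^ 2 := h2
        _ = f * (C c * s1 ^ 2) := by ring
    have hr1 : r1 ≠ 0 := by rintro rfl; simp at hr0
    have h5 : r1.natDegree < n := by
      rw [← hr, natDegree_mul hf0 hr1]; omega
    exact hr1 (ih _ h5 r1 s1 rfl h4)

theorem natDeg_lt {p : F[X]} {m : ℕ} (hm : 0 < m) (h : p.degree < m) : p.natDegree < m := by
  by_cases hp : p = 0
  · subst hp; simpa using hm
  · exact (natDegree_lt_iff_degree_lt hp).2 h

/-- nonvanishing -/
theorem nonvanishing [Fintype F] (f : F[X]) (hsq : Squarefree f) (hd : 0 < f.natDegree)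
    (hf0 : f.coeff 0 ≠ 0) (N m : ℕ) (hN : 2 * N + 1 = Fintype.card F)
    (hm : 2 * m + f.natDegree ≤ Fintype.card F) (J : ℕ) (r s : Fin J → F[X])
    (hr : ∀ j, (r j).degree < m) (hs : ∀ j, (s j).degree < m)
    (h : ∑ j : Fin J, (r j + s j * f ^ N) * X ^ ((j : ℕ) * Fintype.card F) = 0) :
    ∀ j, r j = 0 ∧ s j = 0 := by
  set q := Fintype.card F with hq
  have hf : f ≠ 0 := by rintro rfl; simp at hd
  by_contra hne
  push Not at hne
  -- minimal index
  have hex : ∃ n : ℕ, ∃ hn : n < J, ¬ (r ⟨n, hn⟩ = 0 ∧ s ⟨n, hn⟩ = 0) := by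
    obtain ⟨j, hj⟩ := hne
    exact ⟨j, j.2, fun h1 => hj h1.1 h1.2⟩
  classical
  obtain ⟨hn, hn2⟩ := Nat.find_spec hex
  set n := Nat.find hex with hndef
  have hmin : ∀ i : Fin J, (i : ℕ) < n → r i = 0 ∧ s i = 0 := fun i hi => by
    have := Nat.find_min hex hi
    push Not at this
    exact this i.2
  -- divisibility
  have hdiv : X ^ q ∣ r ⟨n, hn⟩ + s ⟨n, hn⟩ * f ^ N := by
    have h1 : (X : F[X]) ^ ((n + 1) * q) ∣ (r ⟨n, hn⟩ + s ⟨n, hn⟩ * f ^ N) * X ^ (n * q) := by
      rw [← Finset.add_sum_erase _ _ (Finset.mem_univ (⟨n, hn⟩ : Fin J))] at h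
      rw [eq_neg_of_add_eq_zero_left h]
      rw [dvd_neg]
      refine Finset.dvd_sum fun i hi => ?_
      rcases lt_trichotomy (i : ℕ) n with hlt | heq | hgt
      · obtain ⟨h1, h2⟩ := hmin i hlt
        rw [h1, h2, zero_mul, add_zero, zero_mul]
        exact dvd_zero _
      · exact absurd (Fin.ext heq) (Finset.ne_of_mem_erase hi)
      · exact Dvd.dvd.mul_left (pow_dvd_pow _ (Nat.mul_le_mul_right _ hgt)) _
    have h2 : (X : F[X]) ^ ((n + 1) * q) = X ^ q * X ^ (n * q) := by
      rw [← pow_add]; congr 1; ring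
    rw [h2] at h1
    exact (mul_dvd_mul_iff_right (pow_ne_zero _ X_ne_zero)).1 h1
  set R := r ⟨n, hn⟩
  set S := s ⟨n, hn⟩
  have hfq : (X : F[X]) ^ q ∣ f ^ q - C (f.coeff 0) := by
    have h1 : f ^ q = expand F q f := (FiniteField.expand_card f).symm
    have h2 : (X : F[X]) ∣ f - C (f.coeff 0) := by
      rw [X_dvd_iff]; simp
    obtain ⟨g, hg⟩ := h2
    have h3 : expand F q (f - C (f.coeff 0)) = expand F q (X * g) := by rw [hg]
    rw [map_sub, expand_C, map_mul, expand_X, ← h1] at h3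
    exact ⟨_, h3⟩
  have hcong : (X : F[X]) ^ q ∣ f * R ^ 2 - C (f.coeff 0) * S ^ 2 := by
    obtain ⟨A, hA⟩ := hdiv
    obtain ⟨B, hB⟩ := hfq
    have h1 : R = X ^ q * A - S * f ^ N := by rw [← hA]; ring
    have h2 : f * (S * f ^ N) ^ 2 = S ^ 2 * f ^ q := by
      rw [← hN]; ring
    have h3 : f ^ q = X ^ q * B + C (f.coeff 0) := by rw [← hB]; ring
    refine ⟨f * (X ^ q * A ^ 2 - 2 * A * (S * f ^ N)) + S ^ 2 * B, ?_⟩
    calc f * R ^ 2 - C (f.coeff 0) * S ^ 2
        = f * (X ^ q * A) ^ 2 - 2 * f * (X ^ q * A) * (S * f ^ N) + f * (S * f ^ N) ^ 2 -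
          C (f.coeff 0) * S ^ 2 := by rw [h1]; ring
      _ = f * (X ^ q * A) ^ 2 - 2 * f * (X ^ q * A) * (S * f ^ N) + S ^ 2 * (X ^ q * B +
          C (f.coeff 0)) - C (f.coeff 0) * S ^ 2 := by rw [h2, h3]
      _ = _ := by ring
  have hm0 : 0 < m := by
    by_contra h0
    have h0 : m = 0 := by omega
    subst h0
    have h1 : R = 0 := by
      have := hr ⟨n, hn⟩
      rw [Nat.cast_zero, Nat.WithBot.lt_zero_iff, degree_eq_bot] at this
      exact this
    have h2 : S = 0 := by
      have := hs ⟨n, hn⟩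
      rw [Nat.cast_zero, Nat.WithBot.lt_zero_iff, degree_eq_bot] at this
      exact this
    exact hn2 ⟨h1, h2⟩
  have hRd : R.natDegree < m := natDeg_lt hm0 (hr ⟨n, hn⟩)
  have hSd : S.natDegree < m := natDeg_lt hm0 (hs ⟨n, hn⟩)
  have hzero : f * R ^ 2 - C (f.coeff 0) * S ^ 2 = 0 := by
    by_contra h0
    have h1 := natDegree_le_of_dvd hcong h0
    rw [natDegree_X_pow] at h1
    have h2 : (f * R ^ 2 - C (f.coeff 0) * S ^ 2).natDegree < q := by
      refine lt_of_le_of_lt (natDegree_sub_le _ _) (max_lt ?_ ?_)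
      · refine lt_of_le_of_lt natDegree_mul_le ?_
        have := natDegree_pow_le (p := R) (n := 2)
        omega
      · refine lt_of_le_of_lt natDegree_mul_le ?_
        have := natDegree_pow_le (p := S) (n := 2)
        rw [natDegree_C]
        omega
    omega
  have hR0 : R = 0 := no_square f hsq hd (f.coeff 0) hf0 _ R S rfl (sub_eq_zero.1 hzero)
  have hS0 : S = 0 := by
    rw [hR0] at hzero
    have h1 : C (f.coeff 0) * S ^ 2 = 0 := by
      have : f * (0 : F[X]) ^ 2 - C (f.coeff 0) * S ^ 2 = -(C (f.coeff 0) * S ^ 2) := by ring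
      rw [this, neg_eq_zero] at hzero
      exact hzero
    rcases mul_eq_zero.1 h1 with h2 | h2
    · exact absurd (C_eq_zero.1 h2) hf0
    · exact pow_eq_zero_iff two_ne_zero |>.1 h2
  exact hn2 ⟨hR0, hS0⟩

/-- linear algebra: a nontrivial solution of the conditions -/
theorem exists_sol (f : F[X]) (N ℓ J m : ℕ) (a : F) (hm : 0 < m)
    (h1 : ℓ * (m + ℓ * f.natDegree + J) < 2 * J * m) :
    ∃ r s : Fin J → F[X], (∀ j, (r j).degree < m) ∧ (∀ j, (s j).degree < m) ∧
      (∀ i < ℓ, EE f N ℓ J a r s i = 0) ∧ ∃ j, r j ≠ 0 ∨ s j ≠ 0 := by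
  let V := (Fin J → degreeLT F m) × (Fin J → degreeLT F m)
  let B := m + ℓ * f.natDegree + J
  let φ : Fin ℓ → V →ₗ[F] F[X] := fun i => ∑ j : Fin J,
    (LinearMap.mulRight F (X ^ (j : ℕ) : F[X])) ∘ₗ
      (op f (ℓ : F) i ∘ₗ (degreeLT F m).subtype ∘ₗ LinearMap.proj j ∘ₗ LinearMap.fst F _ _ +
        (LinearMap.mulLeft F (C a)) ∘ₗ op f ((ℓ : F) + N) i ∘ₗ (degreeLT F m).subtype ∘ₗ
          LinearMap.proj j ∘ₗ LinearMap.snd F _ _)
  have hφ : ∀ (i : Fin ℓ) (x : V), φ i x = EE f N ℓ J a (fun j => (x.1 j : F[X]))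
      (fun j => (x.2 j : F[X])) i := by
    intro i x
    simp only [φ, EE, LinearMap.sum_apply]
    rfl
  have hdeg : ∀ (i : Fin ℓ) (x : V), φ i x ∈ degreeLT F B := by
    intro i x
    rw [hφ, EE]
    refine Submodule.sum_mem _ fun j _ => ?_
    rw [mem_degreeLT]
    have h2 : (((op f (ℓ : F) i) (x.1 j : F[X]) + C a * (op f ((ℓ : F) + N) i) (x.2 j : F[X])) *
        X ^ (j : ℕ)).natDegree ≤ (m - 1 + i * f.natDegree) + j := by
      refine natDegree_mul_le.trans ?_
      rw [natDegree_X_pow]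
      refine Nat.add_le_add_right ?_ _
      have hx1 : (x.1 j : F[X]).natDegree ≤ m - 1 := by
        have := natDeg_lt hm (mem_degreeLT.1 (x.1 j).2); omega
      have hx2 : (x.2 j : F[X]).natDegree ≤ m - 1 := by
        have := natDeg_lt hm (mem_degreeLT.1 (x.2 j).2); omega
      refine (natDegree_add_le _ _).trans (max_le (op_natDegree f _ _ _ hx1 _) ?_)
      refine natDegree_mul_le.trans ?_
      rw [natDegree_C, zero_add]
      exact op_natDegree f _ _ _ hx2 _
    have h3 : (i : ℕ) * f.natDegree ≤ ℓ * f.natDegree := Nat.mul_le_mul_right _ i.2.le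
    have h4 := j.2
    refine lt_of_le_of_lt degree_le_natDegree (WithBot.coe_lt_coe.2 (lt_of_le_of_lt h2 ?_))
    change m - 1 + (i : ℕ) * f.natDegree + j < m + ℓ * f.natDegree + J
    omega
  let Φ : V →ₗ[F] (Fin ℓ → degreeLT F B) :=
    LinearMap.pi fun i => (φ i).codRestrict (degreeLT F B) (hdeg i)
  have hfd : ∀ n : ℕ, Module.finrank F (degreeLT F n) = n := fun n => by
    rw [LinearEquiv.finrank_eq (degreeLTEquiv F n), Module.finrank_fin_fun]
  have hfinite : ∀ n : ℕ, Module.Finite F (degreeLT F n) := fun n =>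
    Module.Finite.equiv (degreeLTEquiv F n).symm
  have := hfinite m
  have := hfinite B
  have hker : LinearMap.ker Φ ≠ ⊥ := by
    refine LinearMap.ker_ne_bot_of_finrank_lt ?_
    rw [Module.finrank_prod, Module.finrank_pi_fintype, Module.finrank_pi_fintype]
    simp only [hfd, Finset.sum_const, Finset.card_univ, Fintype.card_fin, smul_eq_mul]
    calc ℓ * B < 2 * J * m := h1
      _ = J * m + J * m := by ring
  obtain ⟨x, hx, hx0⟩ := Submodule.exists_mem_ne_zero_of_ne_bot hker
  refine ⟨fun j => (x.1 j : F[X]), fun j => (x.2 j : F[X]), fun j => mem_degreeLT.1 (x.1 j).2,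
    fun j => mem_degreeLT.1 (x.2 j).2, fun i hi => ?_, ?_⟩
  · rw [← hφ ⟨i, hi⟩ x]
    have h2 := congrFun (LinearMap.mem_ker.1 hx) ⟨i, hi⟩
    have h3 := congrArg Subtype.val h2
    exact h3
  · by_contra hne
    push Not at hne
    apply hx0
    refine Prod.ext (funext fun j => Subtype.ext (hne j).1) (funext fun j => Subtype.ext (hne j).2)

open scoped Classical in
/-- the upper bound -/
theorem count_le [Fintype F] (f : F[X]) (hsq : Squarefree f) (hd : 0 < f.natDegree)
    (hf0 : f.coeff 0 ≠ 0) (N ℓ J m : ℕ) (hN : 2 * N + 1 = Fintype.card F) (a : F)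
    (hm0 : 0 < m) (hm : 2 * m + f.natDegree ≤ Fintype.card F) (hJ : 0 < J) (hℓ : 0 < ℓ)
    (h1 : ℓ * (m + ℓ * f.natDegree + J) < 2 * J * m) (hfac : ((ℓ - 1).factorial : F) ≠ 0) :
    ℓ * (Finset.univ.filter fun x : F => f.eval x ^ N = a).card ≤
      ℓ * f.natDegree + m + N * f.natDegree + (J - 1) * Fintype.card F := by
  set q := Fintype.card F with hq
  obtain ⟨r, s, hr, hs, hE, hne⟩ := exists_sol f N ℓ J m a hm0 h1
  have hq0 : (q : F) = 0 := by rw [hq]; exact FiniteField.cast_card_eq_zero F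
  set T := TT f N q ℓ J r s 0 with hT
  have hf : f ≠ 0 := by rintro rfl; simp at hd
  have hT0 : T ≠ 0 := by
    intro h0
    have h2 : ∑ j : Fin J, (r j + s j * f ^ N) * X ^ ((j : ℕ) * q) = 0 := by
      have h3 : T = f ^ ℓ * ∑ j : Fin J, (r j + s j * f ^ N) * X ^ ((j : ℕ) * q) := by
        rw [hT, TT, Nat.sub_zero]
        rfl
      rw [h3] at h0
      exact (mul_eq_zero.1 h0).resolve_left (pow_ne_zero _ hf)
    obtain ⟨j, hj⟩ := hne
    obtain ⟨h3, h4⟩ := nonvanishing f hsq hd hf0 N m hN hm J r s hr hs h2 j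
    rcases hj with h | h
    · exact h h3
    · exact h h4
  have hroot : ∀ x ∈ Finset.univ.filter (fun x : F => f.eval x ^ N = a),
      ℓ ≤ T.roots.count x := by
    intro x hx
    rw [Finset.mem_filter] at hx
    rw [count_roots]
    have h2 : ℓ - 1 < T.rootMultiplicity x := by
      refine (lt_rootMultiplicity_iff_isRoot_iterate_derivative_of_mem_nonZeroDivisors hT0
        (mem_nonZeroDivisors_of_ne_zero hfac)).2 fun i hi => ?_
      rw [hT, iter_TT f N q ℓ J hq0 r s i (by omega), IsRoot.def,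
        eval_TT f N q ℓ J a r s i x (FiniteField.pow_card x) hx.2, hE i (by omega), eval_zero,
        mul_zero]
    omega
  have hdegT : T.natDegree ≤ ℓ * f.natDegree + m + N * f.natDegree + (J - 1) * q := by
    rw [hT, TT, Nat.sub_zero]
    refine natDegree_mul_le.trans ?_
    have h2 : (f ^ ℓ).natDegree ≤ ℓ * f.natDegree := natDegree_pow_le
    have h3 : (∑ j : Fin J, ((op f (ℓ : F) 0) (r j) + (op f ((ℓ : F) + N) 0) (s j) * f ^ N) *
        X ^ ((j : ℕ) * q)).natDegree ≤ m + N * f.natDegree + (J - 1) * q := by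
      refine natDegree_sum_le_of_forall_le _ _ fun j _ => ?_
      refine natDegree_mul_le.trans ?_
      rw [natDegree_X_pow]
      have h4 : (j : ℕ) * q ≤ (J - 1) * q := Nat.mul_le_mul_right _ (by have := j.2; omega)
      refine Nat.add_le_add ?_ h4
      refine (natDegree_add_le _ _).trans (max_le ?_ ?_)
      · have := natDeg_lt hm0 (hr j)
        rw [op_zero]
        omega
      · refine natDegree_mul_le.trans ?_
        have := natDeg_lt hm0 (hs j)
        have h5 : (f ^ N).natDegree ≤ N * f.natDegree := natDegree_pow_le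
        rw [op_zero]
        omega
    omega
  calc ℓ * (Finset.univ.filter fun x : F => f.eval x ^ N = a).card
      = ∑ x ∈ Finset.univ.filter (fun x : F => f.eval x ^ N = a), ℓ := by
        rw [Finset.sum_const, smul_eq_mul, mul_comm]
    _ ≤ ∑ x ∈ Finset.univ.filter (fun x : F => f.eval x ^ N = a), T.roots.count x :=
        Finset.sum_le_sum hroot
    _ ≤ ∑ x : F, T.roots.count x :=
        Finset.sum_le_sum_of_subset (Finset.filter_subset _ _)
    _ = T.roots.card := by
        rw [← Multiset.sum_count_eq_card (s := Finset.univ) (m := T.roots)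
          (fun a _ => Finset.mem_univ a)]
    _ ≤ T.natDegree := T.card_roots'
    _ ≤ _ := hdegT

theorem squarefree_taylor (f : F[X]) (hsq : Squarefree f) (x₀ : F) :
    Squarefree (taylor x₀ f) := by
  intro g hg
  have h1 : taylor (-x₀) g * taylor (-x₀) g ∣ f := by
    obtain ⟨w, hw⟩ := hg
    refine ⟨taylor (-x₀) w, ?_⟩
    have h2 : taylor (-x₀) (taylor x₀ f) = taylor (-x₀) (g * g * w) := by rw [hw]
    rw [taylor_taylor, neg_add_cancel, taylor_zero, taylor_mul, taylor_mul] at h2
    exact h2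
  have h2 := hsq _ h1
  have h3 : taylor x₀ (taylor (-x₀) g) = g := by
    rw [taylor_taylor, add_neg_cancel, taylor_zero]
  rw [← h3]
  exact h2.map (taylorAlgHom x₀)

open scoped Classical in
/-- the number of values of the quadratic character -/
theorem card_bound [Fintype F] (d : ℕ) (hd0 : 0 < d) (f : F[X]) (hsq : Squarefree f)
    (hd : f.natDegree = d) (hchar : ((2 * d + 1).factorial : F) ≠ 0)
    (hq : 16 * (d + 2) ^ 3 ≤ Fintype.card F) (N : ℕ) (hN : 2 * N + 1 = Fintype.card F) (a : F) :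
    4 * (Finset.univ.filter fun x : F => f.eval x ^ N = a).card ≤ 4 * d + 3 * Fintype.card F := by
  set q := Fintype.card F with hqdef
  have hf : f ≠ 0 := by rintro rfl; simp at hd; omega
  have hcube : 16 * (d + 2) ^ 3 = 16 * d ^ 3 + 96 * d ^ 2 + 192 * d + 128 := by ring
  have hdq : d < q := by omega
  -- a point where `f` does not vanish
  obtain ⟨x₀, hx₀⟩ : ∃ x₀ : F, f.eval x₀ ≠ 0 := by
    by_contra hne
    push Not at hne
    have h1 : (Finset.univ : Finset F).card ≤ f.roots.toFinset.card :=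
      Finset.card_le_card fun x _ => by
        rw [Multiset.mem_toFinset, mem_roots hf]; exact hne x
    have h2 := (Multiset.toFinset_card_le f.roots).trans f.card_roots'
    rw [Finset.card_univ] at h1
    omega
  have hcard : (Finset.univ.filter fun x : F => f.eval x ^ N = a).card =
      (Finset.univ.filter fun x : F => (taylor x₀ f).eval x ^ N = a).card := by
    refine Finset.card_bij (fun x _ => x - x₀) ?_ ?_ ?_
    · intro x hx
      rw [Finset.mem_filter] at hx ⊢
      rw [taylor_eval, sub_add_cancel]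
      exact ⟨Finset.mem_univ _, hx.2⟩
    · intro x _ y _ h
      exact sub_left_injective h
    · intro y hy
      rw [Finset.mem_filter] at hy
      refine ⟨y + x₀, ?_, add_sub_cancel_right _ _⟩
      rw [Finset.mem_filter]
      rw [taylor_eval] at hy
      exact ⟨Finset.mem_univ _, hy.2⟩
  rw [hcard]
  have hnd : (taylor x₀ f).natDegree = d := by rw [natDegree_taylor, hd]
  have hc0 : (taylor x₀ f).coeff 0 ≠ 0 := by rw [taylor_coeff_zero]; exact hx₀
  set m := (q - d) / 2 with hm
  have hm1 : 16 * d ^ 3 + 96 * d ^ 2 + 192 * d + 128 ≤ 2 * m + d + 1 := by omega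
  have key := count_le (taylor x₀ f) (squarefree_taylor f hsq x₀) (by omega) hc0 N (2 * (d + 1))
    (d + 2) m hN a (by omega) (by rw [hnd]; omega) (by omega) (by omega) (by
      rw [hnd]
      have h1 : 2 * (d + 1) * (m + 2 * (d + 1) * d + (d + 2)) =
        2 * (d + 1) * m + (4 * d ^ 3 + 10 * d ^ 2 + 10 * d + 4) := by ring
      have h2 : 2 * (d + 2) * m = 2 * (d + 1) * m + 2 * m := by ring
      rw [h1, h2]
      have h3 : 0 ≤ d ^ 3 := Nat.zero_le _
      have h4 : 0 ≤ d ^ 2 := Nat.zero_le _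
      omega) (by
      have : 2 * (d + 1) - 1 = 2 * d + 1 := by omega
      rw [this]; exact hchar)
  rw [hnd] at key
  have hJ : d + 2 - 1 = d + 1 := by omega
  rw [hJ, ← hqdef] at key
  set n := (Finset.univ.filter fun x : F => (taylor x₀ f).eval x ^ N = a).card
  have h2m : 2 * m ≤ q := by omega
  have h2N : 2 * (N * d) ≤ q * d := by
    calc 2 * (N * d) = (2 * N) * d := by ring
      _ ≤ q * d := Nat.mul_le_mul_right _ (by omega)
  have h5 : (d + 1) * (4 * n) ≤ (d + 1) * (4 * d + 3 * q) := by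
    calc (d + 1) * (4 * n) = 2 * (2 * (d + 1) * n) := by ring
      _ ≤ 2 * (2 * (d + 1) * d + m + N * d + (d + 1) * q) := Nat.mul_le_mul_left _ key
      _ = 4 * (d + 1) * d + 2 * m + 2 * (N * d) + 2 * (d + 1) * q := by ring
      _ ≤ 4 * (d + 1) * d + q + q * d + 2 * (d + 1) * q := by omega
      _ = (d + 1) * (4 * d + 3 * q) := by ring
  exact Nat.le_of_mul_le_mul_left h5 (by omega)

/-- POINTS ON QUADRATIC TWISTS OVER FINITE FIELDS -/
theorem exists_pt [Finite F] (d : ℕ) (hd0 : 0 < d) (f : F[X]) (hsq : Squarefree f)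
    (hd : f.natDegree = d) (hchar : ((2 * d + 1).factorial : F) ≠ 0)
    (hq : 16 * (d + 2) ^ 3 ≤ Nat.card F) (b : F) (hb : b ≠ 0) :
    ∃ x y : F, y ≠ 0 ∧ y ^ 2 = b * f.eval x := by
  classical
  have := Fintype.ofFinite F
  rw [Nat.card_eq_fintype_card] at hq
  have hf : f ≠ 0 := by rintro rfl; simp at hd; omega
  have h2 : ringChar F ≠ 2 := by
    intro h
    apply hchar
    have h3 : ringChar F ∣ (2 * d + 1).factorial := by
      rw [h]; exact (Nat.Prime.dvd_factorial Nat.prime_two).2 (by omega)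
    exact (ringChar.spec F _).2 h3
  have hodd := FiniteField.odd_card_of_char_ne_two h2
  obtain ⟨N, hN⟩ : ∃ N, 2 * N + 1 = Fintype.card F := ⟨Fintype.card F / 2, by omega⟩
  have hN2 : Fintype.card F / 2 = N := by omega
  have hba : b ^ N * b ^ N = 1 := by
    rcases FiniteField.pow_dichotomy h2 hb with h | h <;> rw [hN2] at h <;> rw [h] <;> ring
  have hbd := card_bound d hd0 f hsq hd hchar hq N hN (-(b ^ N))
  obtain ⟨x, hx0, hx⟩ : ∃ x : F, f.eval x ≠ 0 ∧ f.eval x ^ N ≠ -(b ^ N) := by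
    by_contra hne
    push Not at hne
    have h1 : (Finset.univ : Finset F) ⊆ f.roots.toFinset ∪
        Finset.univ.filter fun x : F => f.eval x ^ N = -(b ^ N) := by
      intro x _
      rw [Finset.mem_union, Multiset.mem_toFinset, mem_roots hf, Finset.mem_filter]
      by_cases h0 : f.eval x = 0
      · exact Or.inl h0
      · exact Or.inr ⟨Finset.mem_univ _, hne x h0⟩
    have h3 := Finset.card_le_card h1
    have h4 := Finset.card_union_le f.roots.toFinset
      (Finset.univ.filter fun x : F => f.eval x ^ N = -(b ^ N))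
    have h5 := (Multiset.toFinset_card_le f.roots).trans f.card_roots'
    rw [Finset.card_univ] at h3
    have h6 : 16 * (d + 2) ^ 3 = 16 * d ^ 3 + 96 * d ^ 2 + 192 * d + 128 := by ring
    omega
  have hxN : f.eval x ^ N = b ^ N := by
    rcases FiniteField.pow_dichotomy h2 hx0 with h | h <;>
      rcases FiniteField.pow_dichotomy h2 hb with h' | h' <;> rw [hN2] at h h'
    · rw [h, h']
    · exact absurd (by rw [h, h', neg_neg]) hx
    · exact absurd (by rw [h, h']) hx
    · rw [h, h']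
  have hsq : IsSquare (b * f.eval x) := by
    rw [FiniteField.isSquare_iff h2 (mul_ne_zero hb hx0), hN2, mul_pow, hxN, hba]
  obtain ⟨y, hy⟩ := hsq
  refine ⟨x, y, ?_, by rw [hy]; ring⟩
  rintro rfl
  rw [mul_zero] at hy
  exact mul_ne_zero hb hx0 hy

end

end Pool.Agent.MPF
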