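import Pool.Agent.Helper97.MP.Hens
import Pool.Agent.Helper97.MP.Step

/-!
# Block HW, arithmetic part: the values `c f(x)` are squares in `k_v`
-/

set_option autoImplicit false
set_option maxHeartbeats 1000000

namespace Pool.Agent.MPF

open Polynomial NumberField IsDedekindDomain
open Pool.Agent.HG (Pr nm IsOdd)

theorem finite_mem {k : Type} [Field k] [NumberField k] (a : 𝓞 k) (ha : a ≠ 0) :
    {v : Pr k | a ∈ v.asIdeal}.Finite := by
  refine (Ideal.finite_factors (I := Ideal.span {a}) ?_).subset fun v hv => ?_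
  · rwa [Ne, Submodule.zero_eq_bot, Ideal.span_singleton_eq_bot]
  · exact Ideal.dvd_span_singleton.2 hv

theorem finite_nm (k : Type) [Field k] [NumberField k] (n : ℕ) : {v : Pr k | nm v ≤ n}.Finite := by
  refine Set.Finite.of_finite_image (f := fun v : Pr k => v.asIdeal)
    ((Ideal.finite_setOfPred_absNorm_le (S := 𝓞 k) n).subset ?_) ?_
  · rintro _ ⟨v, hv, rfl⟩
    exact hv
  · intro v _ w _ h
    exact HeightOneSpectrum.ext h

/-- clearing denominators -/
theorem clear_den {k : Type} [Field k] [NumberField k] (S : Finset k) :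
    ∃ b : 𝓞 k, b ≠ 0 ∧ ∀ a ∈ S, ∃ c : 𝓞 k, algebraMap (𝓞 k) k c = algebraMap (𝓞 k) k b * a := by
  obtain ⟨b, hb⟩ := IsLocalization.exist_integer_multiples_of_finset (nonZeroDivisors (𝓞 k)) S
  refine ⟨b, nonZeroDivisors.ne_zero b.2, fun a ha => ?_⟩
  obtain ⟨c, hc⟩ := hb a ha
  refine ⟨c, ?_⟩
  rw [hc, Algebra.smul_def]

theorem lift_poly {k : Type} [Field k] [NumberField k] (b : 𝓞 k) (p : k[X])
    (h : ∀ i, ∃ c : 𝓞 k, algebraMap (𝓞 k) k c = algebraMap (𝓞 k) k b * p.coeff i) :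
    ∃ q : (𝓞 k)[X], q.map (algebraMap (𝓞 k) k) = C (algebraMap (𝓞 k) k b) * p := by
  have : C (algebraMap (𝓞 k) k b) * p ∈ lifts (algebraMap (𝓞 k) k) := by
    rw [lifts_iff_coeff_lifts]
    intro n
    obtain ⟨c, hc⟩ := h n
    exact ⟨c, by rw [hc, coeff_C_mul]⟩
  exact (mem_lifts _).1 this

/-- an element with value `1` at `v` is a quotient of integers prime to `v` -/
theorem unit_quot {k : Type} [Field k] [NumberField k] (v : Pr k) (u : k)
    (hu : v.valuation k u = 1) : ∃ α β : 𝓞 k, α ∉ v.asIdeal ∧ β ∉ v.asIdeal ∧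
      u * algebraMap (𝓞 k) k β = algebraMap (𝓞 k) k α := by
  obtain ⟨n, d, h⟩ := v.exists_primeCompl_mul_eq_or_mul_eq u
  have hd : (d : 𝓞 k) ∉ v.asIdeal := d.2
  have hvd : v.valuation k (algebraMap (𝓞 k) k d) = 1 :=
    (HeightOneSpectrum.valuation_eq_one_iff_notMem v).2 hd
  rcases h with h | h
  · refine ⟨n, d, ?_, hd, h⟩
    rw [← HeightOneSpectrum.valuation_eq_one_iff_notMem (K := k) v, ← h, map_mul, hu, hvd, one_mul]
  · refine ⟨d, n, hd, ?_, h⟩
    rw [← HeightOneSpectrum.valuation_eq_one_iff_notMem (K := k) v]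
    have h1 := congrArg (v.valuation k) h
    rw [map_mul, hu, hvd, one_mul] at h1
    exact h1

theorem local_square {k : Type} [Field k] [NumberField k] (f : k[X]) (hf : f.Separable)
    (hd : 0 < f.natDegree) :
    ∃ Bad : Set (Pr k), Bad.Finite ∧ ∀ v ∉ Bad, ∀ c : k, c ≠ 0 → ¬ IsOdd v c →
      ∃ x : k, f.eval x ≠ 0 ∧ IsSquare (algebraMap k (v.adicCompletion k) (c * f.eval x)) := by
  classical
  obtain ⟨A, B, hAB⟩ := hf
  obtain ⟨b, hb0, hb⟩ := clear_den (f.coeffs ∪ A.coeffs ∪ B.coeffs)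
  have hco : ∀ p : k[X], p.coeffs ⊆ f.coeffs ∪ A.coeffs ∪ B.coeffs → ∀ i,
      ∃ c : 𝓞 k, algebraMap (𝓞 k) k c = algebraMap (𝓞 k) k b * p.coeff i := by
    intro p hp i
    by_cases h0 : p.coeff i = 0
    · exact ⟨0, by rw [h0, map_zero, mul_zero]⟩
    · exact hb _ (hp (coeff_mem_coeffs h0))
  have hinj : Function.Injective (algebraMap (𝓞 k) k) := FaithfulSMul.algebraMap_injective _ _
  obtain ⟨F, hF⟩ := lift_poly b f (hco f (fun x hx => by simp [hx]))
  obtain ⟨G, hG⟩ := lift_poly b A (hco A (fun x hx => by simp [hx]))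
  obtain ⟨H, hH⟩ := lift_poly b B (hco B (fun x hx => by simp [hx]))
  have hbk : algebraMap (𝓞 k) k b ≠ 0 := by
    rw [Ne, map_eq_zero_iff _ hinj]; exact hb0
  have hrel : G * F + H * derivative F = C (b ^ 2) := by
    apply map_injective _ hinj
    rw [Polynomial.map_add, Polynomial.map_mul, Polynomial.map_mul, ← derivative_map, hF, hG, hH,
      derivative_C_mul, map_C, map_pow, C_pow]
    linear_combination (C (algebraMap (𝓞 k) k b)) ^ 2 * hAB
  set d := f.natDegree with hdd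
  have hFd : F.natDegree = d := by
    rw [← natDegree_map_eq_of_injective hinj F, hF, natDegree_C_mul hbk]
  have hF0 : F.leadingCoeff ≠ 0 := by
    intro h
    rw [leadingCoeff_eq_zero] at h
    rw [h, natDegree_zero] at hFd
    omega
  have hfac : (((2 * d + 1).factorial : ℕ) : 𝓞 k) ≠ 0 := by
    rw [Nat.cast_ne_zero]; exact Nat.factorial_ne_zero _
  refine ⟨{v | b ∈ v.asIdeal} ∪ {v | F.leadingCoeff ∈ v.asIdeal} ∪
    {v | (((2 * d + 1).factorial : ℕ) : 𝓞 k) ∈ v.asIdeal} ∪ {v | nm v ≤ 16 * (d + 2) ^ 3},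
    (((finite_mem b hb0).union (finite_mem _ hF0)).union (finite_mem _ hfac)).union
      (finite_nm k _), fun v hv c hc hev => ?_⟩
  simp only [Set.mem_union, Set.mem_ofPred_eq, not_or] at hv
  obtain ⟨⟨⟨hv1, hv2⟩, hv3⟩, hv4⟩ := hv
  -- the residue field
  have hmax : v.asIdeal.IsMaximal := v.isMaximal
  let _ : Field (𝓞 k ⧸ v.asIdeal) := Ideal.Quotient.field v.asIdeal
  have hfin : Finite (𝓞 k ⧸ v.asIdeal) := Ideal.finiteQuotientOfFreeOfNeBot v.asIdeal v.ne_bot
  set π := Ideal.Quotient.mk v.asIdeal with hπ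
  have hπ0 : ∀ a : 𝓞 k, π a = 0 ↔ a ∈ v.asIdeal := fun a => Ideal.Quotient.eq_zero_iff_mem
  have hFbar : (F.map π).natDegree = d := by
    rw [natDegree_map_of_leadingCoeff_ne_zero]
    · exact hFd
    · rw [Ne, hπ0]; exact hv2
  have hsep : (F.map π).Separable := by
    have h1 : G.map π * F.map π + H.map π * derivative (F.map π) = C (π b ^ 2) := by
      rw [derivative_map, ← Polynomial.map_mul, ← Polynomial.map_mul, ← Polynomial.map_add, hrel,
        map_C, map_pow]
    have h2 : π b ^ 2 ≠ 0 := pow_ne_zero _ (by rw [Ne, hπ0]; exact hv1)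
    refine ⟨C (π b ^ 2)⁻¹ * G.map π, C (π b ^ 2)⁻¹ * H.map π, ?_⟩
    calc C (π b ^ 2)⁻¹ * G.map π * F.map π + C (π b ^ 2)⁻¹ * H.map π * derivative (F.map π)
        = C (π b ^ 2)⁻¹ * (G.map π * F.map π + H.map π * derivative (F.map π)) := by ring
      _ = 1 := by rw [h1, ← C_mul, inv_mul_cancel₀ h2, C_1]
  -- the class of `c`
  have hvne : ∃ e : k, v.valuation k c = v.valuation k e ^ 2 := by
    unfold IsOdd at hev
    push Not at hev
    exact hev
  obtain ⟨e, he⟩ := hvne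
  have he0 : e ≠ 0 := by
    rintro rfl
    rw [map_zero, zero_pow two_ne_zero] at he
    exact hc ((Valuation.zero_iff _).1 he)
  have hu : v.valuation k (c / e ^ 2) = 1 := by
    rw [map_div₀, map_pow, he, div_self]
    exact pow_ne_zero _ ((Valuation.ne_zero_iff _).2 he0)
  obtain ⟨α, β, hα, hβ, hαβ⟩ := unit_quot v _ hu
  have hαβ' : π (α * β * b) ≠ 0 := by
    rw [map_mul, map_mul]
    exact mul_ne_zero (mul_ne_zero (by rw [Ne, hπ0]; exact hα) (by rw [Ne, hπ0]; exact hβ))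
      (by rw [Ne, hπ0]; exact hv1)
  have hchar : (((2 * d + 1).factorial : ℕ) : 𝓞 k ⧸ v.asIdeal) ≠ 0 := by
    intro h
    apply hv3
    rw [← hπ0, map_natCast]
    exact h
  have hcard : 16 * (d + 2) ^ 3 ≤ Nat.card (𝓞 k ⧸ v.asIdeal) := by
    have : Nat.card (𝓞 k ⧸ v.asIdeal) = nm v := rfl
    rw [this]; omega
  obtain ⟨x', y', hy', hxy⟩ := exists_pt d hd (F.map π) hsep.squarefree hFbar hchar hcard
    (π (α * β * b)) hαβ'
  obtain ⟨x, rfl⟩ := Ideal.Quotient.mk_surjective x'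
  obtain ⟨y, rfl⟩ := Ideal.Quotient.mk_surjective y'
  have hev1 : (F.map π).eval (π x) = π (F.eval x) := by
    rw [eval_map]; exact eval₂_at_apply π x
  have hmem : y ^ 2 - α * β * b * F.eval x ∈ v.asIdeal := by
    rw [← hπ0, map_sub, map_pow, map_mul, ← hev1, sub_eq_zero]
    exact hxy
  have hFx : F.eval x ∉ v.asIdeal := by
    rw [← hπ0, ← hev1]
    intro h0
    change (π y) ^ 2 = π (α * β * b) * (F.map π).eval (π x) at hxy
    rw [h0, mul_zero] at hxy
    exact hy' (pow_eq_zero_iff two_ne_zero |>.1 hxy)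
  have hyv : y ∉ v.asIdeal := by rw [← hπ0]; exact hy'
  have h2v : (2 : 𝓞 k) ∉ v.asIdeal := by
    intro h
    apply hv3
    have h3 : (2 : ℕ) ∣ (2 * d + 1).factorial := (Nat.Prime.dvd_factorial Nat.prime_two).2 (by omega)
    obtain ⟨m, hm⟩ := h3
    rw [hm]
    push_cast
    exact Ideal.mul_mem_right _ _ h
  -- Hensel
  set ι := algebraMap k (v.adicCompletion k) with hι
  have hval : ∀ a : k, Valued.v (ι a) = v.valuation k a := fun a =>
    HeightOneSpectrum.valuedAdicCompletion_eq_valuation' v a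
  set w : 𝓞 k := α * β * b * F.eval x with hw
  obtain ⟨z, hz, -⟩ := hens k v (X ^ 2 - C (ι (algebraMap (𝓞 k) k w))) (ι (algebraMap (𝓞 k) k y))
    (by
      intro i
      rw [coeff_sub, coeff_X_pow, coeff_C]
      refine (Valuation.map_sub _ _ _).trans (max_le ?_ ?_)
      · split_ifs
        · rw [map_one]
        · rw [map_zero]; exact zero_le_one
      · split_ifs
        · rw [hval]; exact v.valuation_le_one w
        · rw [map_zero]; exact zero_le_one) (by rw [hval]; exact v.valuation_le_one y)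
    (by
      rw [eval_sub, eval_pow, eval_X, eval_C, ← map_pow, ← map_pow, ← map_sub, ← map_sub, hval]
      exact (v.valuation_lt_one_iff_mem _).2 hmem)
    (by
      rw [derivative_sub, derivative_X_pow, derivative_C, sub_zero, eval_mul, eval_C, eval_pow,
        eval_X]
      have h4 : ((2 : ℕ) : v.adicCompletion k) * ι (algebraMap (𝓞 k) k y) ^ (2 - 1) =
          ι (algebraMap (𝓞 k) k (2 * y)) := by
        rw [map_mul, map_mul, map_ofNat, map_ofNat, Nat.cast_ofNat]
        change _ * _ ^ 1 = _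
        rw [pow_one]
      rw [h4, hval, HeightOneSpectrum.valuation_eq_one_iff_notMem]
      intro h5
      rcases hmax.isPrime.mem_or_mem h5 with h6 | h6
      · exact h2v h6
      · exact hyv h6)
  rw [eval_sub, eval_pow, eval_X, eval_C, sub_eq_zero] at hz
  -- the value of `f`
  have hfx : algebraMap (𝓞 k) k (F.eval x) = algebraMap (𝓞 k) k b * f.eval (algebraMap (𝓞 k) k x) := by
    have h7 : algebraMap (𝓞 k) k (F.eval x) = (F.map (algebraMap (𝓞 k) k)).eval
        (algebraMap (𝓞 k) k x) := by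
      rw [eval_map]; exact (eval₂_at_apply _ x).symm
    rw [h7, hF, eval_mul, eval_C]
  have hβk : algebraMap (𝓞 k) k β ≠ 0 := by
    rw [Ne, map_eq_zero_iff _ hinj]
    rintro rfl
    exact hβ (Ideal.zero_mem _)
  have hfx0 : f.eval (algebraMap (𝓞 k) k x) ≠ 0 := by
    intro h0
    rw [h0, mul_zero, map_eq_zero_iff _ hinj] at hfx
    apply hFx
    rw [hfx]; exact Ideal.zero_mem _
  refine ⟨algebraMap (𝓞 k) k x, hfx0, ?_⟩
  have hfinal : c * f.eval (algebraMap (𝓞 k) k x) =
      algebraMap (𝓞 k) k w * (e / (algebraMap (𝓞 k) k β * algebraMap (𝓞 k) k b)) ^ 2 := by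
    have h8 : algebraMap (𝓞 k) k w = algebraMap (𝓞 k) k α * algebraMap (𝓞 k) k β *
        algebraMap (𝓞 k) k b * (algebraMap (𝓞 k) k b * f.eval (algebraMap (𝓞 k) k x)) := by
      rw [hw, map_mul, map_mul, map_mul, hfx]
    rw [h8, ← hαβ]
    field_simp
  rw [hfinal, map_mul, ← hz, map_pow]
  exact ⟨z * ι (e / (algebraMap (𝓞 k) k β * algebraMap (𝓞 k) k b)), by ring⟩

end Pool.Agent.MPF
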