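import Pool.Agent.Helper97.MP.HWa
import Pool.Agent.Helper97.L.P1

/-!
# Block HW: points of the twists over the projective line
-/

set_option autoImplicit false
set_option maxHeartbeats 1000000

namespace Pool.Agent.MPF

open Polynomial NumberField IsDedekindDomain
open Pool.Agent.HG (Pr nm IsOdd)
open Pool.Agent.Helper97.L (exists_quot exists_quot' sqf_decomp)

/-- the place `x = a` of `k(x)` -/
theorem place_eval {k K0 : Type} [Field k] [Field K0] [Algebra k K0] {t : K0}
    (hgen : IntermediateField.adjoin k {t} = ⊤) (ht : Transcendental k t) (a : k) :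
    ∃ (P : ValuationSubring K0) (φ : P →+* k),
      (∀ c : k, ∃ h : algebraMap k K0 c ∈ P, φ ⟨algebraMap k K0 c, h⟩ = c) ∧
      (∀ x : P, φ x = 0 ∨ (x : K0)⁻¹ ∈ P) ∧
      ∀ p : k[X], ∃ h : aeval t p ∈ P, φ ⟨aeval t p, h⟩ = p.eval a := by
  classical
  have hinj : Function.Injective (aeval t : k[X] →ₐ[k] K0) := transcendental_iff_injective.1 ht
  let _ : Algebra k[X] K0 := (aeval t : k[X] →ₐ[k] K0).toRingHom.toAlgebra
  have hmap : ∀ p : k[X], algebraMap k[X] K0 p = aeval t p := fun _ => rfl
  have : FaithfulSMul k[X] K0 := (faithfulSMul_iff_algebraMap_injective _ _).2 hinj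
  have : IsFractionRing k[X] K0 := by
    refine IsFractionRing.of_field k[X] K0 ?_
    intro z
    obtain ⟨p, q, h⟩ := exists_quot hgen z
    exact ⟨p, q, h⟩
  have hXa : (X - C a : k[X]) ≠ 0 := X_sub_C_ne_zero a
  have hprime : Prime (X - C a : k[X]) := prime_X_sub_C a
  let v : HeightOneSpectrum k[X] :=
    ⟨Ideal.span {X - C a}, (Ideal.span_singleton_prime hXa).2 hprime, by
      rw [Ne, Ideal.span_singleton_eq_bot]
      exact hXa⟩
  let w := v.valuation K0
  have hwle : ∀ p : k[X], w (aeval t p) ≤ 1 := fun p => v.valuation_le_one p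
  have hwlt : ∀ p : k[X], p.eval a = 0 → w (aeval t p) < 1 := by
    intro p hp
    refine (v.valuation_lt_one_iff_mem p).2 ?_
    rw [show v.asIdeal = Ideal.span {X - C a} from rfl, Ideal.mem_span_singleton, dvd_iff_isRoot]
    exact hp
  have hw1 : ∀ p : k[X], p.eval a ≠ 0 → w (aeval t p) = 1 := by
    intro p hp
    refine le_antisymm (hwle p) ?_
    by_contra hlt
    rw [not_le] at hlt
    have h2 := (v.valuation_lt_one_iff_mem p).1 hlt
    rw [show v.asIdeal = Ideal.span {X - C a} from rfl, Ideal.mem_span_singleton, dvd_iff_isRoot] at h2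
    exact hp h2
  have hconst : ∀ c : k, c ≠ 0 → w (algebraMap k K0 c) = 1 := by
    intro c hc
    have h1 := hw1 (C c) (by rwa [eval_C])
    rwa [aeval_C] at h1
  have hconst' : ∀ c : k, w (algebraMap k K0 c) ≤ 1 := by
    intro c
    have h1 := hwle (C c)
    rwa [aeval_C] at h1
  have hta : t - algebraMap k K0 a ≠ 0 := by
    intro h0
    have h1 : aeval t (X - C a) = 0 := by rw [map_sub, aeval_X, aeval_C]; exact h0
    exact hXa (hinj (by rw [h1, map_zero]))
  have hwt : w (t - algebraMap k K0 a) < 1 := by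
    have := hwlt (X - C a) (by rw [eval_sub, eval_X, eval_C, sub_self])
    rwa [map_sub, aeval_X, aeval_C] at this
  -- residues
  have hres : ∀ z : K0, w z ≤ 1 → ∃ c : k, w (z - algebraMap k K0 c) < 1 := by
    intro z hz
    by_cases hz0 : z = 0
    · refine ⟨0, ?_⟩
      rw [hz0, map_zero, sub_zero, map_zero]
      exact zero_lt_one
    obtain ⟨p, q, hp, hq, h⟩ := exists_quot' hgen z hz0
    obtain ⟨p', hp1, hp2⟩ := exists_eq_pow_rootMultiplicity_mul_and_not_dvd p hp a
    obtain ⟨q', hq1, hq2⟩ := exists_eq_pow_rootMultiplicity_mul_and_not_dvd q hq a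
    rw [dvd_iff_isRoot] at hp2 hq2
    set m := p.rootMultiplicity a
    set n := q.rootMultiplicity a
    have e1 : aeval t p = (t - algebraMap k K0 a) ^ m * aeval t p' := by
      conv_lhs => rw [hp1]
      rw [map_mul, map_pow, map_sub, aeval_X, aeval_C]
    have e2 : aeval t q = (t - algebraMap k K0 a) ^ n * aeval t q' := by
      conv_lhs => rw [hq1]
      rw [map_mul, map_pow, map_sub, aeval_X, aeval_C]
    have hq't : aeval t q' ≠ 0 := by
      intro h0
      have := hw1 q' hq2
      rw [h0, map_zero] at this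
      exact zero_ne_one this
    have hwq : w (aeval t q') = 1 := hw1 q' hq2
    have hwt0 : w (t - algebraMap k K0 a) ≠ 0 := (Valuation.ne_zero_iff _).2 hta
    -- `n ≤ m`
    have hnm : n ≤ m := by
      by_contra hlt
      push Not at hlt
      have h3 : w z * w (t - algebraMap k K0 a) ^ n = w (t - algebraMap k K0 a) ^ m := by
        have h4 : z * ((t - algebraMap k K0 a) ^ n * aeval t q') =
            (t - algebraMap k K0 a) ^ m * aeval t p' := by
          rw [← e1, ← e2, h]
          refine div_mul_cancel₀ _ ?_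
          rw [e2]
          exact mul_ne_zero (pow_ne_zero _ hta) hq't
        have h5 := congrArg w h4
        rw [map_mul, map_mul, map_mul, map_pow, map_pow, hw1 p' hp2, hwq, mul_one, mul_one] at h5
        exact h5
      obtain ⟨j, hj⟩ := Nat.exists_eq_add_of_lt hlt
      rw [hj] at h3
      have h6 : w z * w (t - algebraMap k K0 a) ^ (j + 1) = 1 := by
        apply mul_left_cancel₀ (pow_ne_zero m hwt0)
        rw [mul_one]
        calc w (t - algebraMap k K0 a) ^ m * (w z * w (t - algebraMap k K0 a) ^ (j + 1))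
            = w z * w (t - algebraMap k K0 a) ^ (m + j + 1) := by
              rw [mul_left_comm, ← pow_add, add_assoc]
          _ = _ := h3
      have h7 : w (t - algebraMap k K0 a) ^ (j + 1) < 1 := pow_lt_one₀ zero_le hwt (Nat.succ_ne_zero j)
      have h8 : w z * w (t - algebraMap k K0 a) ^ (j + 1) < 1 := by
        calc w z * w (t - algebraMap k K0 a) ^ (j + 1) ≤ 1 * w (t - algebraMap k K0 a) ^ (j + 1) :=
              mul_le_mul_left hz _
          _ = w (t - algebraMap k K0 a) ^ (j + 1) := one_mul _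
          _ < 1 := h7
      exact absurd h6 h8.ne
    -- so `z = P1 / q'`
    obtain ⟨P1, hP1⟩ : ∃ P1 : k[X], z = aeval t P1 / aeval t q' := by
      obtain ⟨j, hj⟩ := Nat.exists_eq_add_of_le hnm
      refine ⟨(X - C a) ^ j * p', ?_⟩
      rw [h, e1, e2, hj, map_mul, map_pow, map_sub, aeval_X, aeval_C, pow_add]
      field_simp
    refine ⟨P1.eval a / q'.eval a, ?_⟩
    have hqa : algebraMap k K0 (q'.eval a) ≠ 0 := (_root_.map_ne_zero _).2 hq2
    have e : z - algebraMap k K0 (P1.eval a / q'.eval a) =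
        aeval t (C (q'.eval a) * P1 - C (P1.eval a) * q') / (aeval t q' * algebraMap k K0 (q'.eval a)) := by
      rw [hP1, map_div₀, map_sub, map_mul, map_mul, aeval_C, aeval_C]
      field_simp
    rw [e, map_div₀, map_mul, hwq, one_mul, hconst _ hq2, div_one]
    refine hwlt _ ?_
    simp only [eval_sub, eval_mul, eval_C]
    exact sub_eq_zero.2 (mul_comm _ _)
  have huniq : ∀ (z : K0) (c c' : k), w (z - algebraMap k K0 c) < 1 →
      w (z - algebraMap k K0 c') < 1 → c = c' := by
    intro z c c' h1 h2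
    by_contra hne
    have h3 : w (algebraMap k K0 (c' - c)) = 1 := hconst _ (sub_ne_zero.2 (Ne.symm hne))
    have h4 : algebraMap k K0 (c' - c) = (z - algebraMap k K0 c) - (z - algebraMap k K0 c') := by
      rw [map_sub]; ring
    rw [h4] at h3
    have h5 := (Valuation.map_sub w (z - algebraMap k K0 c) (z - algebraMap k K0 c')).trans_lt
      (max_lt h1 h2)
    rw [h3] at h5
    exact lt_irrefl _ h5
  have hmem : ∀ z : K0, z ∈ w.valuationSubring ↔ w z ≤ 1 := fun z =>
    Valuation.mem_valuationSubring_iff w z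
  choose r hr using fun z : w.valuationSubring => hres z ((hmem _).1 z.2)
  let φ : w.valuationSubring →+* k :=
    { toFun := r
      map_one' := huniq 1 _ _ (hr 1) (by rw [map_one, sub_self, map_zero]; exact zero_lt_one)
      map_zero' := huniq 0 _ _ (hr 0) (by rw [map_zero, sub_self, map_zero]; exact zero_lt_one)
      map_add' := fun x y => by
        refine huniq ((x : K0) + y) _ _ (hr (x + y)) ?_
        have h1 : (x : K0) + y - algebraMap k K0 (r x + r y) =
            ((x : K0) - algebraMap k K0 (r x)) + ((y : K0) - algebraMap k K0 (r y)) := by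
          rw [map_add]; ring
        rw [h1]
        exact (Valuation.map_add w _ _).trans_lt (max_lt (hr x) (hr y))
      map_mul' := fun x y => by
        refine huniq ((x : K0) * y) _ _ (hr (x * y)) ?_
        have h1 : (x : K0) * y - algebraMap k K0 (r x * r y) =
            ((x : K0) - algebraMap k K0 (r x)) * y + algebraMap k K0 (r x) *
              ((y : K0) - algebraMap k K0 (r y)) := by
          rw [map_mul]; ring
        rw [h1]
        refine (Valuation.map_add w _ _).trans_lt (max_lt ?_ ?_)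
        · rw [map_mul]
          calc w ((x : K0) - algebraMap k K0 (r x)) * w y
              ≤ w ((x : K0) - algebraMap k K0 (r x)) * 1 := mul_le_mul_right ((hmem _).1 y.2) _
            _ < 1 := by rw [mul_one]; exact hr x
        · rw [map_mul]
          calc w (algebraMap k K0 (r x)) * w ((y : K0) - algebraMap k K0 (r y))
              ≤ 1 * w ((y : K0) - algebraMap k K0 (r y)) := mul_le_mul_left (hconst' _) _
            _ < 1 := by rw [one_mul]; exact hr y }
  have hφ : ∀ z : w.valuationSubring, φ z = r z := fun _ => rfl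
  refine ⟨w.valuationSubring, φ, fun c => ⟨(hmem _).2 (hconst' c), ?_⟩, fun z => ?_,
    fun p => ⟨(hmem _).2 (hwle p), ?_⟩⟩
  · rw [hφ]
    refine huniq (algebraMap k K0 c) _ _ (hr ⟨algebraMap k K0 c, (hmem _).2 (hconst' c)⟩) ?_
    rw [sub_self, map_zero]
    exact zero_lt_one
  · by_cases h0 : φ z = 0
    · exact Or.inl h0
    · right
      rw [hmem, map_inv₀]
      have h1 := hr z
      have h2 : w (algebraMap k K0 (r z)) = 1 := hconst _ h0
      have h3 : w (z : K0) = 1 := by
        have h4 : (z : K0) = ((z : K0) - algebraMap k K0 (r z)) + algebraMap k K0 (r z) := by ring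
        rw [h4, Valuation.map_add_eq_of_lt_right w (by rw [h2]; exact h1), h2]
      rw [h3, inv_one]
  · rw [hφ]
    refine huniq (aeval t p) _ _ (hr ⟨aeval t p, (hmem _).2 (hwle p)⟩) ?_
    have h1 : aeval t p - algebraMap k K0 (p.eval a) = aeval t (p - C (p.eval a)) := by
      rw [map_sub, aeval_C]
    rw [h1]
    refine hwlt _ ?_
    rw [eval_sub, eval_C, sub_self]

/-- the form of `h` -/
theorem form_h {k K0 : Type} [Field k] [NumberField k] [Field K0] [Algebra k K0] {h x : K0}
    (hG : Pool.Agent.L.GoodCurve k h) (hgen : IntermediateField.adjoin k {x} = ⊤) :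
    Transcendental k x ∧ ∃ (f : k[X]) (u : K0), f.Separable ∧ 0 < f.natDegree ∧ u ≠ 0 ∧
      h = aeval x f * u ^ 2 := by
  have hx : Transcendental k x := by
    obtain ⟨t, ht, _⟩ := hG.ff
    intro hx
    have h1 : Algebra.IsAlgebraic k (IntermediateField.adjoin k {x}) :=
      IntermediateField.isAlgebraic_adjoin_simple hx.isIntegral
    have h2 : t ∈ IntermediateField.adjoin k {x} := by rw [hgen]; trivial
    have h3 := h1.isAlgebraic ⟨t, h2⟩
    exact ht (h3.algebraMap (A := K0))
  have hh : h ≠ 0 := by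
    rintro rfl
    refine hG.irr 0 ?_ (zero_mem _)
    rw [map_zero, zero_pow two_ne_zero]
  obtain ⟨N, D, hN, hD, hND⟩ := exists_quot' hgen h hh
  obtain ⟨f, g, hf, hg, hfg⟩ := sqf_decomp (N * D).natDegree (N * D) (mul_ne_zero hN hD) le_rfl
  have hinj : ∀ p : k[X], p ≠ 0 → aeval x p ≠ 0 := by
    intro p hp h0
    exact hp ((transcendental_iff.1 hx) p h0)
  have hDx := hinj D hD
  have hgx := hinj g hg
  obtain ⟨u, hu⟩ : ∃ u : K0, u = aeval x g / aeval x D := ⟨_, rfl⟩
  have hu0 : u ≠ 0 := by
    rw [hu]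
    exact div_ne_zero hgx hDx
  have hhu : h = aeval x f * u ^ 2 := by
    have h1 : aeval x N * aeval x D = aeval x f * aeval x g ^ 2 := by
      rw [← map_mul, hfg, map_mul, map_pow]
    rw [hu, hND, div_pow, div_eq_iff hDx]
    field_simp
    linear_combination h1
  have hsep : f.Separable := PerfectField.separable_iff_squarefree.2 hf
  have hdeg0 : f.natDegree ≠ 0 := by
    intro h0
    obtain ⟨e, he⟩ : ∃ e : k, f = C e := ⟨_, eq_C_of_natDegree_eq_zero h0⟩
    obtain ⟨s, hs⟩ := IsAlgClosed.exists_pow_nat_eq (algebraMap k (AlgebraicClosure K0) e) (n := 2) (by norm_num)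
    have hsa : IsAlgebraic k s := IsAlgebraic.of_pow (n := 2) (by norm_num) (by rw [hs]; exact isAlgebraic_algebraMap e)
    refine hG.irr (s * algebraMap K0 (AlgebraicClosure K0) u) ?_ ?_
    · rw [mul_pow, hs, hhu, he, aeval_C, map_mul, map_pow, ← IsScalarTower.algebraMap_apply]
    · exact mul_mem (Subfield.subset_closure (Or.inl hsa)) (Subfield.subset_closure (Or.inr ⟨u, rfl⟩))
  exact ⟨hx, f, u, hsep, Nat.pos_of_ne_zero hdeg0, hu0, hhu⟩

/-- a value of `f` gives a point -/
theorem crit_value {k K0 F : Type} [Field k] [Field K0] [Field F] [Algebra k K0] [Algebra k F]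
    {x u : K0} {f : k[X]} (hgen : IntermediateField.adjoin k {x} = ⊤) (hx : Transcendental k x)
    (hu : u ≠ 0) (c a : k) (ha : f.eval a ≠ 0) (hsq : IsSquare (algebraMap k F (c * f.eval a))) :
    Crit (aeval x f * u ^ 2) c F := by
  obtain ⟨P, φ, h1, h2, h3⟩ := place_eval hgen hx a
  obtain ⟨hfP, hfv⟩ := h3 f
  refine ⟨P, (algebraMap k F).comp φ, fun b => ?_, fun z => ?_, Or.inr ⟨u, ⟨aeval x f, hfP⟩, hu,
    rfl, ?_, ?_⟩⟩
  · obtain ⟨h4, h5⟩ := h1 b
    exact ⟨h4, by rw [RingHom.comp_apply, h5]⟩
  · rcases h2 z with h4 | h4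
    · exact Or.inl (by rw [RingHom.comp_apply, h4, map_zero])
    · exact Or.inr h4
  · rw [RingHom.comp_apply, hfv]
    exact (_root_.map_ne_zero _).2 ha
  · rw [RingHom.comp_apply, hfv, ← map_mul]
    exact hsq

/-- BLOCK HW -/
theorem hw (hLP : StmtLP) : StmtHW := by
  intro k K₀ _ _ _ _ h x hG hgen
  have hh : h ≠ 0 := by
    rintro rfl
    refine hG.irr 0 ?_ (zero_mem _)
    rw [map_zero, zero_pow two_ne_zero]
  obtain ⟨hx, f, u, hsep, hdeg, hu, hhu⟩ := form_h hG hgen
  obtain ⟨Bad, hBad, H⟩ := local_square f hsep hdeg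
  refine ⟨Bad, hBad, fun v hv c hc hev => ?_⟩
  obtain ⟨a, ha, hsq⟩ := H v hv c hc hev
  rw [hLP k K₀ (v.adicCompletion k) h c hh hc, hhu]
  exact crit_value hgen hx hu c a ha hsq

end Pool.Agent.MPF
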