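import Pool.Agent.Helper13.MP.Fin3
import Pool.Agent.Helper97.MP.Defs

/-!
# Project MP: the bounds in absolute form
-/

set_option autoImplicit false
set_option linter.unusedSectionVars false

namespace Pool.Agent.MPF

open VC IntermediateField NumberField IsDedekindDomain Pool.Agent.SC Pool.Agent.L Pool.Agent.M
open Pool.Agent.MP
open Pool.Agent.HG (Pr nm IsOdd Ctx Gd Ev Od DatM StmtDer StmtSel StmtMert StmtSplit StmtBTL
  StmtThue StmtG4 StmtG2 StmtG1M StmtG2M StmtG3M Cls cond clsLE clsLE_finite cls_eq_iff)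

/-- Absolute bounds: no twist has a section, or the number of the twists with a section is at most
`C X (log X) ^ (κ - 1 - η)` and the number of the twists soluble at the primes which divide them is
at least `δ X (log X) ^ (κ - 1)`, in every coset `c₀ W` which contains one. -/
def StmtAbs : Prop :=
  ∀ (k K0 : Type) [Field k] [NumberField k] [Field K0] [Algebra k K0] (h : K0), GoodCurve k h →
    H4 k h →
    (∀ c : k, c ≠ 0 → ¬ HasSec h c) ∨
    ∃ κ η C : ℝ, 0 < κ ∧ 0 < η ∧ 0 < C ∧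
      (∀ X : ℕ, 3 ≤ X → ∀ T : Finset k,
        (∀ c ∈ T, ∀ c' ∈ T, (∃ d : k, c = c' * d ^ 2) → c = c') →
        (∀ c ∈ T, c ≠ 0 ∧ cond c ≤ X ∧ HasSec h c) →
        (T.card : ℝ) ≤ C * (X * Real.log X ^ (κ - 1)) / Real.log X ^ η) ∧
      ∀ (Sg : Set (Pr k)), Sg.Finite → ∀ (W : Subgroup kˣ), W.FiniteIndex → ∀ c₀ : kˣ,
        (∀ v ∉ Sg, IsOdd v (c₀ : k) → FrobFix k h v) →
        ∃ (δ : ℝ) (X₀ : ℕ), 0 < δ ∧ ∀ X : ℕ, X₀ ≤ X → ∃ T : Finset kˣ,
          (∀ c ∈ T, ∀ c' ∈ T, (∃ d : k, (c : k) = c' * d ^ 2) → c = c') ∧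
          (∀ c ∈ T, cond (c : k) ≤ X ∧ c₀⁻¹ * c ∈ W ∧
            ∀ v ∉ Sg, IsOdd v (c : k) → FrobFix k h v) ∧
          δ * (X * Real.log X ^ (κ - 1)) ≤ T.card

theorem kap_pos {k : Type} [Field k] [NumberField k] {f : Polynomial k} (h : 0 < f.natDegree) :
    0 < kap f := by
  have hNF : NumberField f.SplittingField := NumberField.of_module_finite k f.SplittingField
  have hfin : Finite (f.SplittingField ≃ₐ[k] f.SplittingField) := inferInstance
  unfold kap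
  have hne : Nonempty {σ : f.SplittingField ≃ₐ[k] f.SplittingField //
      ∃ θ ∈ f.rootSet f.SplittingField, σ θ = θ} := by
    have h1 : (f.map (algebraMap k f.SplittingField)).Splits := Polynomial.SplittingField.splits f
    have h2 : (f.map (algebraMap k f.SplittingField)).degree ≠ 0 := by
      rw [Polynomial.degree_map]
      intro h0
      rw [Polynomial.natDegree_eq_of_degree_eq_some h0] at h
      exact lt_irrefl _ h
    obtain ⟨θ, hθ⟩ := Polynomial.Splits.exists_eval_eq_zero h1 h2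
    refine ⟨⟨1, θ, ?_, rfl⟩⟩
    rw [Polynomial.mem_rootSet]
    refine ⟨?_, ?_⟩
    · rintro rfl
      simp at h
    · rwa [Polynomial.eval_map_algebraMap] at hθ
  have h3 : 0 < Nat.card {σ : f.SplittingField ≃ₐ[k] f.SplittingField //
      ∃ θ ∈ f.rootSet f.SplittingField, σ θ = θ} := Nat.card_pos
  have h4 : 0 < Nat.card (f.SplittingField ≃ₐ[k] f.SplittingField) := Nat.card_pos
  positivity

/-- The absolute bounds from the blocks. -/
theorem abs_of (hTR : StmtTR) (hNR : StmtNR) (hFB : StmtFB) (hFIN : StmtFIN)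
    (hZ : StmtZ) (hINT : StmtINT) (hLFT : StmtLFT) (hMU : StmtMU) (hQMD : StmtQMD)
    (hW3 : StmtW3) (hBIJ : StmtBIJ) (hCK : StmtCountK) (hDK : StmtDK) (hG3K : StmtG3K)
    (hPIT : StmtPIT) (hLOWK : StmtLOWK) (hLOWC : StmtLOWC) : StmtAbs := by
  intro k K0 _ _ _ _ h hG hH4
  have hSel : StmtSel := Pool.Agent.HG.sel
  obtain ⟨E, U, _, _, _, _, _, _, _, _, r, G, hact⟩ := hTR k K0 h hG
  by_cases hex : ∃ (c₁ : k) (Φ₁ : (E ≃ₐ[k] E) →* (U ≃+* U)), c₁ ≠ 0 ∧ Act (K0 := K0) r c₁ Φ₁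
  swap
  · refine Or.inl fun c hc hs => ?_
    obtain ⟨Φ, hΦ⟩ := hact _ hc hs
    exact hex ⟨_, Φ, hc, hΦ⟩
  obtain ⟨c₁, Φ₁, hc₁, hA₁⟩ := hex
  have hclE : IsAlgClosed E := G.clE
  have halg : Algebra.IsAlgebraic k E := G.algE
  have hcl : IsAlgClosure k E := ⟨hclE, halg⟩
  let e : E ≃ₐ[k] AlgebraicClosure k := IsAlgClosure.equiv k E (AlgebraicClosure k)
  obtain ⟨f, θ, Gl⟩ := exists_glE hNR hFB G (noRat_of_H4 hH4) hc₁ hA₁
  obtain ⟨β, hβ⟩ := hBIJ k K0 E U h r G c₁ Φ₁ hc₁ hA₁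
  obtain ⟨H5, HJ⟩ := h4_E e hH4
  obtain ⟨H5', HJ'⟩ := h4_places H5 HJ β hβ
  have hroots := fun (L : Type) [Field L] [NumberField L] [Algebra k L] [IsGalois k L]
    (hs : (f.map (algebraMap k L)).Splits) =>
    h4_roots (L := L) Gl hc₁ hA₁ (IsAlgClosed.lift : L →ₐ[k] E) hs H5' HJ'
  have hNF : NumberField f.SplittingField := NumberField.of_module_finite k f.SplittingField
  have hGal : IsGalois k f.SplittingField := IsGalois.of_separable_splitting_field Gl.sep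
  have hdeg : 5 ≤ f.natDegree :=
    (hroots f.SplittingField (Polynomial.SplittingField.splits f)).1
  obtain ⟨η, C, hη, hC, hup⟩ := upperK hFIN hZ hINT hLFT hMU hQMD hW3 hSel
    Pool.Agent.Helper21.HG.mert Pool.Agent.Helper21.HG.split
    (Pool.Agent.HG.btl Pool.Agent.Helper21.HG.mert) Pool.Agent.Helper88.HG.thue
    Pool.Agent.Helper88.HG.g4 Pool.Agent.HG.g2 Pool.Agent.HG.g1M Pool.Agent.HG.g2M
    hDK hG3K hCK G Gl hdeg (fun L _ _ _ _ hs => (hroots L hs).2)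
  refine Or.inr ⟨kap f, η, C, kap_pos (by omega), hη, hC, fun X hX T hT1 hT2 => ?_,
    fun Sg hSg W hW c₀ hc₀ => ?_⟩
  · refine hup X hX T hT1 fun c hc => ?_
    obtain ⟨h1, h2, h3⟩ := hT2 c hc
    exact ⟨h1, h2, hact _ h1 h3⟩
  · exact lowerK hLFT hW3 Pool.Agent.Helper21.HG.mert
      Pool.Agent.Helper88.HG.thue Pool.Agent.Helper88.HG.g4 hDK hPIT hLOWK hLOWC G Gl (by omega)
      hc₁ hA₁ e β hβ hSg hW hc₀

end Pool.Agent.MPF
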