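import Pool.Agent.Helper97.MP.All0
import Pool.Agent.Helper90.MP.LowC
import Pool.Agent.Helper79.MP.L1

/-!
# Project MP, final file: all blocks
-/

set_option autoImplicit false

namespace Pool.Agent.MPF

theorem abs_all : StmtAbs := abs_of_LOWC Pool.Agent.MP.lowc

theorem l4_all : StmtL4 := Pool.Agent.MPF.l4 hens

end Pool.Agent.MPF
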