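import Pool.Agent.Helper97.MP.Fin
import Pool.Agent.Helper13.MP.All0
import Pool.Agent.Helper59.MP.BIJ
import Pool.Agent.Helper28.MP.PIT
import Pool.Agent.Helper99.MP.L4
import Pool.Agent.Helper79.MP.LP

/-!
# Project MP, final file: everything but `StmtLOWC`, `StmtL1`
-/

set_option autoImplicit false

namespace Pool.Agent.MPF

open Pool.Agent.M Pool.Agent.MP

theorem abs_of_LOWC (hLOWC : StmtLOWC) : StmtAbs := by
  have hLM : StmtLM := lm (Pool.Agent.L.stmtK2 Pool.Agent.L.stmtK1) Pool.Agent.L.stmtK3 k4M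
    Pool.Agent.L.stmtAR
  have hFT : StmtFT := fT
  have hFIN : StmtFIN := fin hLM hFT hf Pool.Agent.L.stmtFR Pool.Agent.L.stmtAR
  have hINT : StmtINT := int hLM hFT coc nR Pool.Agent.L.stmtAR
  have hQMD : StmtQMD := qMD (pI hFT) Pool.Agent.Helper22.M.w4 (qW hFT (w1 hFT)) w2
  exact abs_of Pool.Agent.L.stmtTR nR fb hFIN z hINT lft (mu hFT) hQMD w3
    bIJ Pool.Agent.Helper99.MP.countK dk g3K pit lowK hLOWC

end Pool.Agent.MPF
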