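import Pool.Agent.Helper97.MP.Abs
import Pool.Agent.Helper97.MP.HWb
import Pool.Agent.Helper88.HG.RatPlace2

/-!
# Project MP: the proportion of the locally soluble twists with a section
-/

set_option autoImplicit false
set_option linter.unusedSectionVars false

namespace Pool.Agent.MPF

open NumberField IsDedekindDomain
open Pool.Agent.MP (clsU clsU_finite clsU_le le_clsU FrobFix H4)
open Pool.Agent.L (GoodCurve HasSec)
open Pool.Agent.HG (Pr nm IsOdd StmtSel Cls cond cls_eq_iff)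

theorem odd_finite {k : Type} [Field k] [NumberField k] (c : k) (hc : c ≠ 0) :
    {v : Pr k | IsOdd v c}.Finite := by
  obtain ⟨a, b, hb, rfl⟩ := IsFractionRing.div_surjective (A := 𝓞 k) c
  have ha : a ≠ 0 := by
    rintro rfl
    rw [map_zero, zero_div] at hc
    exact hc rfl
  have hb0 : b ≠ 0 := nonZeroDivisors.ne_zero hb
  refine ((finite_mem a ha).union (finite_mem b hb0)).subset fun v hv => ?_
  by_contra hcon
  simp only [Set.mem_union, Set.mem_ofPred_eq, not_or] at hcon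
  refine hv 1 ?_
  rw [map_div₀, (HeightOneSpectrum.valuation_eq_one_iff_notMem v).2 hcon.1,
    (HeightOneSpectrum.valuation_eq_one_iff_notMem v).2 hcon.2, map_one, one_pow, div_one]

theorem isOdd_congr {k : Type} [Field k] [NumberField k] {v : Pr k} {c c₀ : k} (hc₀ : c₀ ≠ 0)
    (h : IsSquare (algebraMap k (v.adicCompletion k) (c₀⁻¹ * c))) (hodd : IsOdd v c) :
    IsOdd v c₀ := by
  intro d hd
  obtain ⟨w, hw⟩ := h
  -- the value of a square of `k_v` is a square of a value of `k`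
  obtain ⟨e, he⟩ := HeightOneSpectrum.valuation_surjective k v (Valued.v w)
  apply hodd (d * e)
  have h1 : Valued.v (algebraMap k (v.adicCompletion k) (c₀⁻¹ * c)) = v.valuation k (c₀⁻¹ * c) :=
    HeightOneSpectrum.valuedAdicCompletion_eq_valuation' v _
  rw [hw, map_mul, ← he] at h1
  have h2 : c = c₀ * (c₀⁻¹ * c) := by field_simp
  rw [h2, map_mul, ← h1, hd, map_mul, mul_pow, pow_two (v.valuation k e)]

/-- the elements of `k*` which are positive at the real embeddings -/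
theorem exists_real (k : Type) [Field k] [NumberField k] :
    ∃ W : Subgroup kˣ, W.FiniteIndex ∧ ∀ w ∈ W, ∀ φ : k →+* ℝ, IsSquare (φ (w : k)) := by
  classical
  have hfin : Finite (k →+* ℝ) := by
    refine Finite.of_injective (fun φ : k →+* ℝ => (Complex.ofRealHom.comp φ : k →+* ℂ)) ?_
    intro φ ψ h
    ext x
    have h1 := RingHom.congr_fun h x
    simpa using h1
  let s : (k →+* ℝ) → kˣ →* SignTypeˣ := fun φ =>
    Units.map ((signHom (α := ℝ) : ℝ →* SignType).comp (φ : k →* ℝ))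
  refine ⟨⨅ φ, (s φ).ker, ?_, fun w hw φ => ?_⟩
  · refine Subgroup.finiteIndex_iInf fun φ => ?_
    exact Subgroup.finiteIndex_ker (s φ)
  · rw [Subgroup.mem_iInf] at hw
    have h1 := (hw φ)
    rw [MonoidHom.mem_ker] at h1
    have h2 := congrArg (fun u : SignTypeˣ => (u : SignType)) h1
    have h3 : SignType.sign (φ (w : k)) = 1 := h2
    rw [sign_eq_one_iff] at h3
    exact ⟨√(φ w), (Real.mul_self_sqrt h3.le).symm⟩

/-- the key inclusion -/
theorem exists_coset (hL1 : StmtL1) (hL2 : StmtL2) (hL4 : StmtL4) {k K0 : Type} [Field k]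
    [NumberField k] [Field K0] [Algebra k K0] {h : K0} (hG : GoodCurve k h) {S : Set (Pr k)}
    (hS : S.Finite) {c₀ : kˣ} (hc₀ : LocSol h S (c₀ : k)) :
    ∃ (Sg : Set (Pr k)) (W : Subgroup kˣ), Sg.Finite ∧ W.FiniteIndex ∧
      (∀ v ∉ Sg, IsOdd v (c₀ : k) → FrobFix k h v) ∧
      ∀ c : kˣ, c₀⁻¹ * c ∈ W → (∀ v ∉ Sg, IsOdd v (c : k) → FrobFix k h v) →
        LocSol h S (c : k) := by
  have hh : h ≠ 0 := by
    rintro rfl
    refine hG.irr 0 ?_ (zero_mem _)
    rw [map_zero, zero_pow two_ne_zero]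
  obtain ⟨Bad, hBad, hL⟩ := hL1 k K0 h hG
  obtain ⟨Wr, hWr, hWr2⟩ := exists_real k
  choose Wv hWv hWv2 using fun v : Pr k => hL4 k v
  have hSg : (S ∪ Bad ∪ {v : Pr k | IsOdd v (c₀ : k)}).Finite :=
    (hS.union hBad).union (odd_finite _ c₀.ne_zero)
  refine ⟨S ∪ Bad ∪ {v | IsOdd v (c₀ : k)}, Wr ⊓ ⨅ v ∈ hSg.toFinset, Wv v, hSg, ?_, ?_, ?_⟩
  · have h1 : (⨅ v ∈ hSg.toFinset, Wv v).FiniteIndex :=
      Subgroup.finiteIndex_iInf' Wv fun v _ => hWv v
    exact inferInstance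
  · intro v hv hodd
    exact absurd (Or.inr hodd) hv
  · intro c hc hfrob
    rw [Subgroup.mem_inf] at hc
    have hsq : ∀ v ∈ S ∪ Bad ∪ {v | IsOdd v (c₀ : k)},
        IsSquare (algebraMap k (v.adicCompletion k) ((c₀ : k)⁻¹ * c)) := by
      intro v hv
      have h1 := hc.2
      rw [Subgroup.mem_iInf] at h1
      have h2 := h1 v
      rw [Subgroup.mem_iInf] at h2
      have h3 := hWv2 v _ (h2 (hSg.mem_toFinset.2 hv))
      rwa [Units.val_mul, Units.val_inv_eq_inv_val] at h3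
    refine ⟨fun v hv => ?_, fun φ => ?_⟩
    · by_cases hvS : v ∈ S ∪ Bad ∪ {v | IsOdd v (c₀ : k)}
      · refine hL2 k K0 (v.adicCompletion k) h c c₀ hh c.ne_zero c₀.ne_zero (hsq v hvS)
          (hc₀.1 v ?_)
        rcases hv with h1 | h1
        · exact Or.inl h1
        · exact Or.inr (isOdd_congr c₀.ne_zero (hsq v hvS) h1)
      · have hv1 : v ∉ Bad := fun h1 => hvS (Or.inl (Or.inr h1))
        have hv2 : v ∉ S := fun h1 => hvS (Or.inl (Or.inl h1))
        have hodd : IsOdd v (c : k) := hv.resolve_left hv2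
        exact hL v hv1 c c.ne_zero (hfrob v hvS hodd)
    · have h1 := hWr2 _ hc.1 φ
      rw [Units.val_mul, Units.val_inv_eq_inv_val] at h1
      exact @hL2 k K0 ℝ _ _ _ _ _ φ.toAlgebra h c c₀ hh c.ne_zero c₀.ne_zero h1 (hc₀.2 φ)

/-- The bounds for the twists soluble at `S` and at the primes which divide them. -/
theorem locSol_bounds (hAbs : StmtAbs) (hL1 : StmtL1) (hL2 : StmtL2) (hL4 : StmtL4)
    {k K0 : Type} [Field k] [NumberField k] [Field K0] [Algebra k K0] {h : K0}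
    (hG : GoodCurve k h) (hH4 : H4 k h) :
    (∀ c : k, c ≠ 0 → ¬ HasSec h c) ∨
    ∃ κ η C : ℝ, 0 < κ ∧ 0 < η ∧ 0 < C ∧
      (∀ (P : kˣ → Prop) (X : ℕ), 3 ≤ X →
        (Nat.card (clsU (fun c : kˣ => P c ∧ HasSec h (c : k)) X) : ℝ) ≤
          C * (X * Real.log X ^ (κ - 1)) / Real.log X ^ η) ∧
      ∀ S : Set (Pr k), S.Finite → ∀ c₀ : kˣ, LocSol h S (c₀ : k) →
        ∃ (δ : ℝ) (X₀ : ℕ), 0 < δ ∧ ∀ X : ℕ, X₀ ≤ X →
          δ * (X * Real.log X ^ (κ - 1)) ≤
            Nat.card (clsU (fun c : kˣ => LocSol h S (c : k)) X) := by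
  have hSel : StmtSel := Pool.Agent.HG.sel
  rcases hAbs k K0 h hG hH4 with h0 | ⟨κ, η, C, hκ, hη, hC, hup, hlow⟩
  · exact Or.inl h0
  refine Or.inr ⟨κ, η, C, hκ, hη, hC, fun P X hX => ?_, fun S hS c₀ hc₀ => ?_⟩
  · refine clsU_le hSel _ X _ fun T hT1 hT2 => ?_
    refine hup X hX T hT1 fun c hc => ?_
    obtain ⟨c', rfl, h1, -, h2⟩ := hT2 c hc
    exact ⟨c'.ne_zero, h1, h2⟩
  · obtain ⟨Sg, W, hSg, hW, h1, h2⟩ := exists_coset hL1 hL2 hL4 hG hS hc₀
    obtain ⟨δ, X₀, hδ, h3⟩ := hlow Sg hSg W hW c₀ h1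
    refine ⟨δ, X₀, hδ, fun X hX => ?_⟩
    obtain ⟨T, hT1, hT2, hT3⟩ := h3 X hX
    refine hT3.trans ?_
    have h4 := le_clsU hSel (fun c : kˣ => LocSol h S (c : k)) X T hT1 fun c hc =>
      ⟨(hT2 c hc).1, h2 c (hT2 c hc).2.1 (hT2 c hc).2.2⟩
    exact_mod_cast h4

/-- The proportion of the twists with a section among the locally soluble ones. -/
theorem ratio_of (hAbs : StmtAbs) (hL1 : StmtL1) (hL2 : StmtL2) (hL4 : StmtL4)
    {k K0 : Type} [Field k] [NumberField k] [Field K0] [Algebra k K0] {h : K0}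
    (hG : GoodCurve k h) (hH4 : H4 k h) :
    ∃ η : ℝ, 0 < η ∧ ∀ S : Set (Pr k), S.Finite → ∃ C : ℝ, 0 < C ∧ ∀ X : ℕ, 3 ≤ X →
      (Nat.card (clsU (fun c : kˣ => LocSol h S (c : k) ∧ HasSec h (c : k)) X) : ℝ) ≤
        C * Nat.card (clsU (fun c : kˣ => LocSol h S (c : k)) X) / Real.log X ^ η := by
  have hSel : StmtSel := Pool.Agent.HG.sel
  have hlog : ∀ X : ℕ, 3 ≤ X → 0 < Real.log X := fun X hX => Real.log_pos (by
    have h1 : (3 : ℝ) ≤ X := by exact_mod_cast hX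
    linarith)
  have hempty : ∀ (P : kˣ → Prop) (X : ℕ), (∀ c, ¬ P c) → Nat.card (clsU P X) = 0 := by
    intro P X hP
    have h1 : clsU P X = ∅ := by
      rw [Set.eq_empty_iff_forall_notMem]
      rintro _ ⟨c, -, -, h2⟩
      exact hP c h2
    rw [h1, Nat.card_coe_set_eq, Set.ncard_empty]
  rcases locSol_bounds hAbs hL1 hL2 hL4 hG hH4 with h0 | ⟨κ, η, C, hκ, hη, hC, hup, hlow⟩
  · refine ⟨1, one_pos, fun S _ => ⟨1, one_pos, fun X hX => ?_⟩⟩
    rw [hempty (fun c : kˣ => LocSol h S (c : k) ∧ HasSec h (c : k)) X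
      fun c h1 => h0 c c.ne_zero h1.2]
    have := hlog X hX
    rw [Nat.cast_zero]
    positivity
  refine ⟨η, hη, fun S hS => ?_⟩
  by_cases hex : ∃ c₀ : kˣ, LocSol h S (c₀ : k)
  swap
  · refine ⟨1, one_pos, fun X hX => ?_⟩
    rw [hempty (fun c : kˣ => LocSol h S (c : k) ∧ HasSec h (c : k)) X
      fun c h1 => hex ⟨c, h1.1⟩]
    have := hlog X hX
    rw [Nat.cast_zero]
    positivity
  obtain ⟨c₀, hc₀⟩ := hex
  obtain ⟨δ, X₀, hδ, h3⟩ := hlow S hS c₀ hc₀
  have hlX0 : 0 ≤ Real.log ((X₀ : ℕ) : ℝ) := Real.log_natCast_nonneg X₀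
  refine ⟨C / δ + Real.log X₀ ^ η, by positivity, fun X hX => ?_⟩
  have hlX := hlog X hX
  have hlη : 0 < Real.log X ^ η := Real.rpow_pos_of_pos hlX η
  obtain ⟨NL, hNL⟩ : ∃ n : ℝ, n = Nat.card (clsU (fun c : kˣ => LocSol h S (c : k)) X) := ⟨_, rfl⟩
  have hNL0 : 0 ≤ NL := by rw [hNL]; exact Nat.cast_nonneg _
  rw [← hNL, le_div_iff₀ hlη, add_mul]
  rcases le_or_gt X₀ X with hXX | hXX
  · have h4 := hup (fun c => LocSol h S (c : k)) X hX
    rw [le_div_iff₀ hlη] at h4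
    have h5 := h3 X hXX
    rw [← hNL] at h5
    have h6 : C * (X * Real.log X ^ (κ - 1)) ≤ C / δ * NL := by
      calc C * (X * Real.log X ^ (κ - 1)) =
          C / δ * (δ * (X * Real.log X ^ (κ - 1))) := by field_simp
        _ ≤ C / δ * NL := mul_le_mul_of_nonneg_left h5 (by positivity)
    have h7 : 0 ≤ Real.log X₀ ^ η * NL := by positivity
    linarith
  · have h1 : (Nat.card (clsU (fun c : kˣ => LocSol h S (c : k) ∧ HasSec h (c : k)) X) : ℝ) ≤
        NL := by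
      rw [hNL]
      have h2 : clsU (fun c : kˣ => LocSol h S (c : k) ∧ HasSec h (c : k)) X ⊆
          clsU (fun c : kˣ => LocSol h S (c : k)) X := by
        rintro _ ⟨c, rfl, h3, h4, -⟩
        exact ⟨c, rfl, h3, h4⟩
      exact_mod_cast Nat.card_mono (clsU_finite hSel _ X) h2
    have h3 : Real.log X ^ η ≤ Real.log X₀ ^ η := by
      refine Real.rpow_le_rpow hlX.le ?_ hη.le
      refine Real.log_le_log (by
        have h1 : (3 : ℝ) ≤ X := by exact_mod_cast hX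
        linarith) ?_
      exact_mod_cast hXX.le
    have h4 : (Nat.card (clsU (fun c : kˣ => LocSol h S (c : k) ∧ HasSec h (c : k)) X) : ℝ) *
        Real.log X ^ η ≤ Real.log X₀ ^ η * NL := by
      rw [mul_comm]
      exact mul_le_mul h3 h1 (Nat.cast_nonneg _) (Real.rpow_nonneg hlX0 η)
    have h5 : 0 ≤ C / δ * NL := by positivity
    linarith

/-! ## The projective line -/

/-- everywhere locally soluble -/
def ELS {k K₀ : Type} [Field k] [NumberField k] [Field K₀] [Algebra k K₀] (h : K₀) (c : k) :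
    Prop :=
  (∀ v : Pr k, TwistPoint h c (v.adicCompletion k)) ∧
  ∀ φ : k →+* ℝ, @TwistPoint k K₀ _ _ _ h c ℝ _ φ.toAlgebra

/-- a rational point gives a section -/
theorem hasSec_of_point {k K₀ : Type} [Field k] [CharZero k] [Field K₀] [Algebra k K₀] {h : K₀}
    {c : k} (H : TwistPoint h c k) : HasSec h c := by
  obtain ⟨K, _, _, _, _, y, hy, -, P, ψ, hψ⟩ := H
  refine ⟨K, inferInstance, inferInstance, inferInstance, inferInstance, y, hy, ?_⟩
  refine Pool.Agent.Helper88.HG.section_of_place P (fun a => (hψ a).1) fun z hz => ?_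
  obtain ⟨h1, h2⟩ := hψ (ψ ⟨z, hz⟩)
  refine ⟨ψ ⟨z, hz⟩, ?_⟩
  have h3 : ψ (⟨z, hz⟩ - ⟨algebraMap k K (ψ ⟨z, hz⟩), h1⟩) = 0 := by
    rw [map_sub, h2]
    exact sub_self _
  have h4 : ¬ IsUnit (⟨z, hz⟩ - ⟨algebraMap k K (ψ ⟨z, hz⟩), h1⟩ : P) := by
    intro hu
    have h5 := hu.map ψ
    rw [h3] at h5
    exact not_isUnit_zero h5
  exact (P.valuation_lt_one_iff _).1 ((IsLocalRing.mem_maximalIdeal _).2 h4)

theorem p1_els (hLP : StmtLP) {k K0 : Type} [Field k] [NumberField k] [Field K0] [Algebra k K0]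
    {h x : K0} (hG : GoodCurve k h) (hgen : IntermediateField.adjoin k {x} = ⊤) :
    (∃ S : Set (Pr k), S.Finite ∧ ∀ c : k, c ≠ 0 → (ELS h c ↔ LocSol h S c)) ∧
    ∃ c₀ : kˣ, ELS h (c₀ : k) ∧ HasSec h (c₀ : k) := by
  have hh : h ≠ 0 := by
    rintro rfl
    refine hG.irr 0 ?_ (zero_mem _)
    rw [map_zero, zero_pow two_ne_zero]
  constructor
  · obtain ⟨Bad, hBad, H⟩ := hw hLP k K0 h x hG hgen
    refine ⟨Bad, hBad, fun c hc => ⟨fun h1 => ⟨fun v _ => h1.1 v, h1.2⟩, fun h1 => ⟨fun v => ?_,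
      h1.2⟩⟩⟩
    by_cases h2 : v ∈ Bad ∨ IsOdd v c
    · exact h1.1 v h2
    · push Not at h2
      exact H v h2.1 c hc h2.2
  · obtain ⟨hx, f, u, hsep, hdeg, hu, hhu⟩ := form_h hG hgen
    -- a value of `f`
    obtain ⟨a, ha⟩ : ∃ a : k, f.eval a ≠ 0 := by
      by_contra hne
      push Not at hne
      have hf0 : f = 0 := Polynomial.funext fun a => by rw [hne a, Polynomial.eval_zero]
      rw [hf0, Polynomial.natDegree_zero] at hdeg
      exact lt_irrefl _ hdeg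
    have key : ∀ (F : Type) [Field F] [Algebra k F], TwistPoint h (f.eval a) F := by
      intro F _ _
      rw [hLP k K0 F h (f.eval a) hh ha, hhu]
      refine crit_value hgen hx hu (f.eval a) a ha ?_
      rw [map_mul]
      exact ⟨algebraMap k F (f.eval a), rfl⟩
    refine ⟨Units.mk0 (f.eval a) ha, ⟨fun v => key _, fun φ => ?_⟩, hasSec_of_point (key k)⟩
    let _ := φ.toAlgebra
    exact key ℝ

end Pool.Agent.MPF
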